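import Pool.Agent.Lib.DG.Blue

/-! Block ABS: the diagonal argument. -/

namespace Pool.Agent.Lib.DG

open Finset Filter Function

namespace ABS

section Grp
variable {G : Type} [Group G]

theorem l1_map {α β : Type} (φ : α → β) (f : α →₀ ℝ) :
    ((f.mapDomain φ).sum fun _ x => |x|) ≤ f.sum fun _ x => |x| := by
  classical
  have h : ∀ b, |f.mapDomain φ b| ≤ ∑ a ∈ f.support, if φ a = b then |f a| else 0 := fun b => by
    rw [Finsupp.mapDomain, Finsupp.sum, Finsupp.finsetSum_apply]
    refine (abs_sum_le_sum_abs _ _).trans (le_of_eq (sum_congr rfl fun a _ => ?_))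
    rw [Finsupp.single_apply]
    split_ifs <;> simp
  refine (sum_le_sum fun b _ => h b).trans ?_
  rw [sum_comm]
  refine sum_le_sum fun a _ => ?_
  rw [sum_ite_eq]
  split_ifs <;> simp

theorem nK_anti {K K' : Subgroup G} (h : K ≤ K') (f : G →₀ ℝ) : nK K' f ≤ nK K f := by
  unfold nK
  refine le_trans (le_of_eq ?_) (l1_map (Subgroup.quotientMapOfLE h) _)
  rw [← Finsupp.mapDomain_comp]
  rfl

open scoped Classical in
theorem tK_eq {K K' : Subgroup G} (h : K ≤ K') (f : G →₀ ℝ) :
    tK K' f = (f.mapDomain (QuotientGroup.mk : G → G ⧸ K)).sum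
      fun c x => if c.out ∈ K' then x else 0 := by
  rw [Finsupp.sum_mapDomain_index (fun _ => by simp) (fun _ _ _ => by split_ifs <;> simp), tK,
    sum_filter, Finsupp.sum]
  refine sum_congr rfl fun g _ => ?_
  obtain ⟨k, hk⟩ := QuotientGroup.mk_out_eq_mul K g
  rw [hk]
  simp only [K'.mul_mem_cancel_right (h k.2)]

theorem abs_tK (K : Subgroup G) (f : G →₀ ℝ) : |tK K f| ≤ nK K f := by
  rw [tK_eq le_rfl]
  refine (abs_sum_le_sum_abs _ _).trans (sum_le_sum fun c _ => ?_)
  dsimp only
  split_ifs <;> simp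

open scoped Classical in
theorem avg {O : Type} (s : Finset O) (K : Subgroup G) (K' : O → Subgroup G) (h : ∀ o, K ≤ K' o)
    (D : ℕ) (hD : ∀ g ∉ K, (s.filter fun o => g ∈ K' o).card ≤ D) (f : G →₀ ℝ) :
    |∑ o ∈ s, (tK (K' o) f - tK K f)| ≤ D * nK K f := by
  simp only [tK_eq (h _), tK_eq (le_refl K), Finsupp.sum, ← sum_sub_distrib]
  rw [sum_comm, nK, Finsupp.sum, mul_sum]
  refine (abs_sum_le_sum_abs _ _).trans (sum_le_sum fun c _ => ?_)
  by_cases hc : c.out ∈ K
  · simp only [hc, h _ hc, if_true, sub_self, sum_const_zero, abs_zero]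
    positivity
  · simp only [hc, if_false, sub_zero]
    rw [← sum_filter, sum_const, nsmul_eq_mul, abs_mul, Nat.abs_cast]
    exact mul_le_mul_of_nonneg_right (by exact_mod_cast hD _ hc) (abs_nonneg _)

theorem abs_sub_le {K K' : Subgroup G} (h : K ≤ K') (f : G →₀ ℝ) : |tK K' f - tK K f| ≤ nK K f := by
  classical
  simpa using avg ({()} : Finset Unit) K (fun _ => K') (fun _ => h) 1
    (fun g _ => (card_filter_le _ _).trans (by simp)) f

theorem tK_congr {K K' : Subgroup G} {f : G →₀ ℝ} (h : ∀ g ∈ f.support, g ∈ K ↔ g ∈ K') :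
    tK K f = tK K' f := by
  classical
  unfold tK
  rw [filter_congr h]

theorem nK_nonneg (K : Subgroup G) (f : G →₀ ℝ) : 0 ≤ nK K f := sum_nonneg fun _ _ => abs_nonneg _

end Grp

theorem pow_le (k i : ℕ) : (1 / 2 : ℝ) ^ 2 ^ (i + k) ≤ (1 / 2) ^ 2 ^ k * (1 / 2) ^ i := by
  rw [← pow_add]
  refine pow_le_pow_of_le_one (by norm_num) (by norm_num) ?_
  induction i with
  | zero => simp
  | succ i ih =>
    have : 0 < 2 ^ (i + k) := by positivity
    rw [show i + 1 + k = i + k + 1 by ring, pow_succ]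
    omega

theorem summ {a : ℕ → ℝ} {M : ℝ} (h : ∀ j, |a j| ≤ M * (1 / 2) ^ 2 ^ j) : Summable a := by
  have hM : 0 ≤ M := by
    have := (abs_nonneg _).trans (h 0)
    norm_num at this
    exact this
  refine Summable.of_norm_bounded (summable_geometric_two.mul_left (M * (1 / 2) ^ 2 ^ 0))
    fun j => (h j).trans ?_
  rw [mul_assoc]
  exact mul_le_mul_of_nonneg_left (pow_le 0 j) hM

theorem tail {a : ℕ → ℝ} {M : ℝ} {k : ℕ} (h : ∀ j, |a j| ≤ M * (1 / 2) ^ 2 ^ j)
    (h0 : ∀ j < k, a j = 0) : |∑' j, a j| ≤ 2 * (M * (1 / 2) ^ 2 ^ k) := by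
  have hM : 0 ≤ M := by
    have := (abs_nonneg _).trans (h 0)
    norm_num at this
    exact this
  rw [← (summ h).sum_add_tsum_nat_add k, sum_eq_zero fun j hj => h0 j (mem_range.1 hj), zero_add,
    mul_comm]
  refine tsum_of_norm_bounded (f := fun j => a (j + k))
    (hasSum_geometric_two.mul_left (M * (1 / 2) ^ 2 ^ k)) fun j => ?_
  refine (h _).trans ?_
  rw [mul_assoc]
  exact mul_le_mul_of_nonneg_left (pow_le k j) hM

end ABS

open ABS in
theorem stABS : St_ABS := by
  classical
  intro G _ O z Ω K D k μ m T _ F hmono hun hpeel hμ hk hc hC hF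
  rcases isEmpty_or_nonempty T with hT | hT
  · exact ⟨z, fun _ => Or.inl rfl, fun τ => hT.elim τ⟩
  obtain ⟨e, he⟩ := exists_surjective_nat T
  choose c0 hc0 using hF
  let c : ℕ → ℕ := fun i => c0 (e i) + 1
  let Inc : ℕ → Finset ℕ := fun n => (range (n + 1)).filter
    fun i => 2 * (n + 1) * (k n * c i ^ 3 ^ k n * D n) ≤ (Ω n).card
  let E : ℕ → Finset G := fun n => (Inc n).biUnion fun i =>
    (range (k n)).biUnion fun j => (F (e i) j).support
  let good : ∀ n, (∀ i, O i) → Finset (O n) := fun n σ =>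
    (Ω n).filter fun o => ∀ g ∈ E n, g ∉ K σ → g ∉ K (update σ n o)
  have hgood : ∀ n σ, Adm z Ω σ → σ n = z n → (Ω n).card ≤ 2 * (good n σ).card := by
    intro n σ h1 h2
    have h3 : ((Ω n).filter fun o => ¬ ∀ g ∈ E n, g ∉ K σ → g ∉ K (update σ n o)) ⊆
        ((E n).filter fun g => g ∉ K σ).biUnion
          fun g => (Ω n).filter fun o => g ∈ K (update σ n o) := fun o ho => by
      rw [mem_filter] at ho
      obtain ⟨ho1, ho2⟩ := ho
      push Not at ho2
      obtain ⟨g, h4, h5, h6⟩ := ho2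
      exact mem_biUnion.2 ⟨g, mem_filter.2 ⟨h4, h5⟩, mem_filter.2 ⟨ho1, h6⟩⟩
    have h4 := (card_le_card h3).trans (card_biUnion_le_card_mul _ _ (D n)
      fun g hg => hpeel σ n h1 h2 g (mem_filter.1 hg).2)
    have h5 : 2 * (n + 1) * ((E n).card * D n) ≤ (n + 1) * (Ω n).card := by
      calc 2 * (n + 1) * ((E n).card * D n)
          ≤ 2 * (n + 1) * ((∑ i ∈ Inc n, k n * c i ^ 3 ^ k n) * D n) := by
            gcongr
            refine card_biUnion_le.trans (sum_le_sum fun i _ => ?_)
            refine (card_biUnion_le_card_mul _ _ (c i ^ 3 ^ k n) fun j hj => ?_).trans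
              (by rw [card_range])
            exact (hc0 _ j).trans ((Nat.pow_le_pow_left (Nat.le_succ _) _).trans
              (Nat.pow_le_pow_right (Nat.succ_pos _)
                (Nat.pow_le_pow_right (by norm_num) (mem_range.1 hj).le)))
        _ = ∑ i ∈ Inc n, 2 * (n + 1) * (k n * c i ^ 3 ^ k n * D n) := by
            rw [sum_mul, mul_sum]
        _ ≤ (Inc n).card * (Ω n).card := by
            rw [← smul_eq_mul]
            exact sum_le_card_nsmul _ _ _ fun i hi => (mem_filter.1 hi).2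
        _ ≤ (n + 1) * (Ω n).card := by
            gcongr
            exact (card_filter_le _ _).trans (by rw [card_range])
    have h6 : 2 * ((E n).card * D n) ≤ (Ω n).card :=
      Nat.le_of_mul_le_mul_left (by linarith) (Nat.succ_pos n)
    have h7 := card_filter_add_card_filter_not (s := Ω n)
      (fun o => ∀ g ∈ E n, g ∉ K σ → g ∉ K (update σ n o))
    have h8 := Nat.mul_le_mul_right (D n) (card_filter_le (E n) fun g => g ∉ K σ)
    simp only [good]
    omega
  let val : (∀ i, O i) → T → ℝ := fun σ τ => ∑' j, tK (K σ) (F τ j)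
  let S : ℕ → (∀ i, O i) → ℝ := fun n σ => ∑ i ∈ range (n + 1), m i (σ i)
  let P : ∀ n, (∀ i, O i) → O n → Prop := fun n σ o =>
    μ n / 4 ≤ |val (update σ n o) (e n.unpair.1) - S n (update σ n o)|
  have hstep : ∀ n σ, ∃ o : O n, (o = z n ∧ ∀ o' ∈ good n σ, ¬ P n σ o') ∨
      (o ∈ good n σ ∧ P n σ o) := fun n σ => by
    by_cases h : ∃ o ∈ good n σ, P n σ o
    · obtain ⟨o, h1, h2⟩ := h
      exact ⟨o, Or.inr ⟨h1, h2⟩⟩
    · push Not at h
      exact ⟨z n, Or.inl ⟨rfl, h⟩⟩
  choose st hst using hstep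
  obtain ⟨s, hs0, hs⟩ : ∃ s : ℕ → ∀ i, O i, s 0 = z ∧
      ∀ n, s (n + 1) = update (s n) n (st n (s n)) :=
    ⟨fun n => Nat.rec z (fun n σ => update σ n (st n σ)) n, rfl, fun _ => rfl⟩
  obtain ⟨w, hwd⟩ : ∃ w : ∀ i, O i, ∀ n, w n = st n (s n) := ⟨_, fun _ => rfl⟩
  have htr : ∀ n, trunc z w n = s n := fun n => by
    induction n with
    | zero => funext i; simp [trunc, hs0]
    | succ n ih =>
      funext i
      rw [hs, ← ih]
      by_cases hi : i = n
      · subst hi
        rw [update_self, ih]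
        simp [trunc, hwd]
      · rw [update_of_ne hi]
        simp only [trunc]
        rw [if_congr (show i < n + 1 ↔ i < n by omega) rfl rfl]
  have hw : Adm z Ω w := fun n =>
    hwd n ▸ (hst n (s n)).imp (fun h => h.1) fun h => (mem_filter.1 h.1).1
  have hsa : ∀ n, Adm z Ω (s n) := fun n i => by
    rw [← htr]
    unfold trunc
    split_ifs
    · exact hw i
    · exact Or.inl rfl
  have hsz : ∀ n, s n n = z n := fun n => by rw [← htr]; simp [trunc]
  have hsm : Monotone fun n => K (s n) := fun a b hab => hmono _ _ fun i => by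
    rw [← htr, ← htr]
    by_cases hi : i < a
    · exact Or.inr (by simp [trunc, hi, hi.trans_le hab])
    · exact Or.inl (by simp [trunc, hi])
  have hsw : ∀ n, K (s n) ≤ K w := fun n => hmono _ _ fun i => by
    rw [← htr]
    by_cases hi : i < n
    · exact Or.inr (by simp [trunc, hi])
    · exact Or.inl (by simp [trunc, hi])
  have hup : ∀ n o, K (s n) ≤ K (update (s n) n o) := fun n o => hmono _ _ fun i => by
    by_cases hi : i = n
    · subst hi; exact Or.inl (hsz i)
    · exact Or.inr (update_of_ne hi _ _).symm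
  refine ⟨w, hw, fun τ n0 C hb hsum => ?_⟩
  rw [htr] at hb
  obtain ⟨i, rfl⟩ := he τ
  obtain ⟨N, hN⟩ := eventually_atTop.1 ((hc (c i)).and ((hC (64 * C)).and
    ((eventually_ge_atTop n0).and (eventually_ge_atTop i))))
  obtain ⟨n, hn, hni⟩ : ∃ n, N ≤ n ∧ n.unpair.1 = i :=
    ⟨Nat.pair i N, Nat.right_le_pair _ _, by rw [Nat.unpair_pair]⟩
  obtain ⟨-, ⟨hC1, hC2⟩, hn0, -⟩ := hN n hn
  obtain ⟨hμ0, hmz, hmo, hcard, -⟩ := hμ n
  have hE : ∀ n', n ≤ n' → ∀ j < k n', ∀ g ∈ (F (e i) j).support, g ∈ E n' := fun n' h j hj g hg =>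
    mem_biUnion.2 ⟨i, mem_filter.2 ⟨mem_range.2 (Nat.lt_succ_of_le (hN n' (hn.trans h)).2.2.2),
      (hN n' (hn.trans h)).1⟩, mem_biUnion.2 ⟨j, mem_range.2 hj, hg⟩⟩
  have hb' : ∀ K', K (s n0) ≤ K' → ∀ j, nK K' (F (e i) j) ≤ C * (1 / 2) ^ 2 ^ j :=
    fun K' h j => (nK_anti h _).trans (hb j)
  have hsu : ∀ K', K (s n0) ≤ K' → Summable fun j => tK K' (F (e i) j) :=
    fun K' h => summ fun j => (abs_tK _ _).trans (hb' K' h j)
  have hA : μ n / 4 ≤ |val (s (n + 1)) (e i) - S n (s (n + 1))| := by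
    rcases hst n (s n) with ⟨h1, h2⟩ | ⟨-, h2⟩
    · rw [hs, h1, ← hsz n, update_eq_self]
      by_contra h3
      have h4 : ∀ o ∈ good n (s n), μ n / 2 ≤ val (update (s n) n o) (e i) - val (s n) (e i) := by
        intro o ho
        have h5 := h2 o ho
        simp only [P, hni] at h5
        have h6 : S n (update (s n) n o) = S n (s n) + μ n := by
          simp only [S, sum_range_succ, update_self, hsz, hmz, hmo o (mem_filter.1 ho).1]
          rw [sum_congr rfl fun j hj => by rw [update_of_ne (mem_range.1 hj).ne]]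
          ring
        have h7 := abs_lt.1 (not_le.1 h5)
        have h8 := abs_lt.1 (not_le.1 h3)
        linarith [h7.1, h8.2]
      have h5 : ∑ o ∈ good n (s n), (val (update (s n) n o) (e i) - val (s n) (e i)) =
          ∑' j, ∑ o ∈ good n (s n),
            (tK (K (update (s n) n o)) (F (e i) j) - tK (K (s n)) (F (e i) j)) := by
        rw [Summable.tsum_finsetSum fun o _ =>
          (hsu _ ((hsm hn0).trans (hup n o))).sub (hsu _ (hsm hn0))]
        exact sum_congr rfl fun o _ =>
          ((hsu _ ((hsm hn0).trans (hup n o))).tsum_sub (hsu _ (hsm hn0))).symm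
      have h6 := tail (k := k n) (M := D n * C) (a := fun j => ∑ o ∈ good n (s n),
          (tK (K (update (s n) n o)) (F (e i) j) - tK (K (s n)) (F (e i) j))) (fun j => by
        refine (avg _ _ _ (hup n) (D n) (fun g hg => ?_) _).trans ?_
        · exact (card_le_card (filter_subset_filter _ (filter_subset _ _))).trans
            (hpeel _ n (hsa n) (hsz n) g hg)
        · rw [mul_assoc]
          exact mul_le_mul_of_nonneg_left (hb' _ (hsm hn0) j) (Nat.cast_nonneg _))
        (fun j hj => sum_eq_zero fun o ho => sub_eq_zero.2 (tK_congr fun g hg =>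
          ⟨fun h => by_contra fun h' => (mem_filter.1 ho).2 g (hE n le_rfl j hj g hg) h' h,
            fun h => hup n o h⟩))
      have h7 := card_nsmul_le_sum _ _ _ h4
      rw [nsmul_eq_mul, h5] at h7
      have h8 : ((Ω n).card : ℝ) ≤ 2 * (good n (s n)).card := by
        exact_mod_cast hgood n _ (hsa n) (hsz n)
      have h9 := le_abs_self (∑' j, ∑ o ∈ good n (s n),
        (tK (K (update (s n) n o)) (F (e i) j) - tK (K (s n)) (F (e i) j)))
      nlinarith
    · rw [hs]
      simpa only [P, hni] using h2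
  have hB : |val w (e i) - val (s (n + 1)) (e i)| ≤ μ n / 32 := by
    have h1 := (hsm hn0).trans (hsm (Nat.le_succ n))
    have h2 := tail (k := k (n + 1)) (M := C)
      (a := fun j => tK (K w) (F (e i) j) - tK (K (s (n + 1))) (F (e i) j))
      (fun j => (abs_sub_le (hsw _) _).trans (hb' _ h1 j)) (fun j hj => sub_eq_zero.2
        (tK_congr fun g hg => ⟨fun h => ?_, fun h => hsw _ h⟩))
    · rw [(hsu _ (h1.trans (hsw _))).tsum_sub (hsu _ h1)] at h2
      simp only [val]
      linarith
    · obtain ⟨n', h3⟩ := hun w g h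
      rw [htr] at h3
      have h4 : ∀ d, g ∈ K (s (n + 1 + d)) → g ∈ K (s (n + 1)) := fun d => by
        induction d with
        | zero => exact id
        | succ d ih =>
          intro h5
          refine ih (by_contra fun h6 => ?_)
          rw [← add_assoc, hs] at h5
          rcases hst (n + 1 + d) (s (n + 1 + d)) with ⟨h7, -⟩ | ⟨h7, -⟩
          · rw [h7, ← hsz, update_eq_self] at h5
            exact h6 h5
          · exact (mem_filter.1 h7).2 g (hE _ (by omega) j (hj.trans_le (hk (by omega))) g hg) h6 h5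
      exact h4 n' (hsm (by omega) h3)
  have hm : ∀ j, |m j (w j)| ≤ 2 * μ j := fun j => by
    obtain ⟨h1, h2, h3, -⟩ := hμ j
    rcases hw j with h | h
    · rw [h, h2, abs_of_pos h1]; linarith
    · rw [h3 _ h, abs_of_pos (by linarith)]
  have hgeo : ∀ a j, μ (j + (a + 1)) ≤ μ a / 32 * (1 / 2) ^ j := fun a j => by
    induction j with
    | zero => have := (hμ a).2.2.2.2; simp only [zero_add, pow_zero]; linarith
    | succ j ih =>
      have h1 := (hμ (j + (a + 1))).2.2.2.2
      have h2 := (hμ (j + (a + 1))).1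
      rw [show j + 1 + (a + 1) = j + (a + 1) + 1 by ring, pow_succ]
      linarith
  have hms : ∀ j, ‖m (j + (n + 1)) (w (j + (n + 1)))‖ ≤ μ n / 16 * (1 / 2) ^ j := fun j => by
    have := hm (j + (n + 1))
    have := hgeo n j
    rw [Real.norm_eq_abs]
    linarith
  have hD := tsum_of_norm_bounded (hasSum_geometric_two.mul_left (μ n / 16)) hms
  have hsu2 : Summable fun j => m j (w j) := (summable_nat_add_iff (n + 1)).1
    (Summable.of_norm_bounded (summable_geometric_two.mul_left (μ n / 16)) hms)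
  have h1 := hsu2.sum_add_tsum_nat_add (n + 1)
  have h2 : S n (s (n + 1)) = ∑ j ∈ range (n + 1), m j (w j) := sum_congr rfl fun j hj => by
    rw [← htr]
    simp [trunc, mem_range.1 hj]
  have h3 : val w (e i) = ∑' j, m j (w j) := hsum.tsum_eq
  rw [Real.norm_eq_abs] at hD
  have h4 := abs_le.1 hD
  have h5 := abs_le.1 hB
  rcases le_abs.1 hA with h | h <;> linarith [h4.1, h4.2, h5.1, h5.2]

end Pool.Agent.Lib.DG
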