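import Pool.Agent.Lib.IT.Blue

/-! A projection whose trace is missed by all idempotents over `l1 (G)`: definitions and blocks
(see b169_L1_h36.md). Block `X` is `theorem stX (earlier blocks) : St_X`. -/

namespace Pool.Agent.Lib.DG

open Finset MeasureTheory Filter Function Pool.Agent.Lib.IT

/-- idempotent matrices over `l1 (G)` -/
def L1Idem {G : Type} [Group G] {r : ℕ} (e : Fin r → Fin r → G → ℝ) : Prop :=
  (∀ i j, Summable fun g => |e i j g|) ∧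
    ∀ i k g, ∑ j, ∑' h, e i j h * e j k (h⁻¹ * g) = e i k g

/-- the theorem -/
def St_MAIN : Prop := ∃ (G : Type) (_ : Group G), Group.FG G ∧
  ∃ p ∈ redAlg G, p * p = p ∧ IsSelfAdjoint p ∧
    ∀ (r : ℕ) (e : Fin r → Fin r → G → ℝ), L1Idem e →
      ∀ q q' : ℚ, tr p ≠ q * ∑ i, e i i 1 + q'

section Grp
variable {G : Type} [Group G]

open scoped Classical in
/-- sum over a subgroup -/
noncomputable def tK (K : Subgroup G) (f : G →₀ ℝ) : ℝ := ∑ g ∈ f.support with g ∈ K, f g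

/-- `l1` norm of the image on the cosets -/
noncomputable def nK (K : Subgroup G) (f : G →₀ ℝ) : ℝ :=
  (f.mapDomain (QuotientGroup.mk : G → G ⧸ K)).sum fun _ x => |x|

end Grp

/-- L1: the traces of `l1` idempotents are sums of countably many series (Newton iteration
`a ↦ 3 a ^ 2 - 2 a ^ 3` started at a rational matrix) -/
def St_L1 : Prop := ∀ (G : Type) [Group G] [Countable G],
  ∃ (T : Type) (_ : Countable T) (F : T → ℕ → G →₀ ℝ),
    (∀ τ, ∃ c : ℕ, ∀ j, (F τ j).support.card ≤ c ^ 3 ^ j) ∧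
    ∀ (H : Type) [Group H] (φ : G →* H), Surjective φ → ∀ K : ℕ → Subgroup G,
      (∀ n, (K n).Normal) → Monotone K → (∀ g, φ g = 1 ↔ ∃ n, g ∈ K n) →
      ∀ (r : ℕ) (e : Fin r → Fin r → H → ℝ), L1Idem e → ∀ q q' : ℚ,
        ∃ (τ : T) (n : ℕ) (C : ℝ), (∀ j, nK (K n) (F τ j) ≤ C * (1 / 2) ^ 2 ^ j) ∧
          HasSum (fun j => tK φ.ker (F τ j)) (q * ∑ i, e i i 1 + q')

/-- the first `n` choices -/
def trunc {O : ℕ → Type} (z w : ∀ n, O n) (n : ℕ) : ∀ i, O i := fun i => if i < n then w i else z i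

/-- admissible choices -/
def Adm {O : ℕ → Type} (z : ∀ n, O n) (Ω : ∀ n, Finset (O n)) (w : ∀ n, O n) : Prop :=
  ∀ n, w n = z n ∨ w n ∈ Ω n

open scoped Classical in
/-- ABS: the diagonal argument -/
def St_ABS : Prop := ∀ (G : Type) [Group G] (O : ℕ → Type) (z : ∀ n, O n) (Ω : ∀ n, Finset (O n))
  (K : (∀ n, O n) → Subgroup G) (D k : ℕ → ℕ) (μ : ℕ → ℝ) (m : ∀ n, O n → ℝ)
  (T : Type) [Countable T] (F : T → ℕ → G →₀ ℝ),
  (∀ w w', (∀ n, w n = z n ∨ w n = w' n) → K w ≤ K w') →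
  (∀ w, ∀ g ∈ K w, ∃ n, g ∈ K (trunc z w n)) →
  (∀ w n, Adm z Ω w → w n = z n → ∀ g ∉ K w,
    ((Ω n).filter fun o => g ∈ K (update w n o)).card ≤ D n) →
  (∀ n, 0 < μ n ∧ m n (z n) = μ n ∧ (∀ o ∈ Ω n, m n o = 2 * μ n) ∧ 1 ≤ 4 * μ n * (Ω n).card ∧
    32 * μ (n + 1) ≤ μ n) →
  Monotone k → (∀ c : ℕ, ∀ᶠ n in atTop, 2 * (n + 1) * (k n * c ^ 3 ^ k n * D n) ≤ (Ω n).card) →
  (∀ C : ℝ, ∀ᶠ n in atTop, C * D n * (1 / 2) ^ 2 ^ k n ≤ 1 ∧ C * (1 / 2) ^ 2 ^ k (n + 1) ≤ μ n) →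
  (∀ τ, ∃ c : ℕ, ∀ j, (F τ j).support.card ≤ c ^ 3 ^ j) →
  ∃ w, Adm z Ω w ∧ ∀ (τ : T) (n : ℕ) (C : ℝ),
    (∀ j, nK (K (trunc z w n)) (F τ j) ≤ C * (1 / 2) ^ 2 ^ j) →
    ¬ HasSum (fun j => tK (K w) (F τ j)) (∑' n, m n (w n))

section Data
variable {C W : Type} [Fintype C] [AddCommGroup W] {Γ : Type} [Group Γ]

/-- the word read on a copy -/
def wd {A : Type} (ι : A → Γ) (ω : Γ → C × Bool → W) : A × C → W := fun e => ω (ι e.1) (e.2, true)

/-- configurations for an arbitrary family of codes -/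
def XA (D : Data C W) (gen : C × W → Γ) (A : ∀ n, AddSubgroup (Fin (D.N n) × C → W)) :
    AddSubgroup (Γ → C × Bool → W) where
  carrier := {ω | (∀ g c w, ω g (c, true) = ω (g * gen (c, w)) (c, false)) ∧
    ∀ n ι, IsCopy D gen n ι → wd ι ω ∈ A n}
  add_mem' := fun hu hv => ⟨fun g c w => by simp only [Pi.add_apply, hu.1 g c w, hv.1 g c w],
    fun n ι h => (A n).add_mem (hu.2 n ι h) (hv.2 n ι h)⟩
  zero_mem' := ⟨fun _ _ _ => rfl, fun n _ _ => (A n).zero_mem⟩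
  neg_mem' := fun hu => ⟨fun g c w => by simp only [Pi.neg_apply, hu.1 g c w],
    fun n ι h => (A n).neg_mem (hu.2 n ι h)⟩

theorem XA_adm (D : Data C W) (gen : C × W → Γ) (I : Set ℕ) :
    XA D gen (adm D I) = Xg D gen I := rfl

theorem XA_mono (D : Data C W) (gen : C × W → Γ) {A A' : ∀ n, AddSubgroup (Fin (D.N n) × C → W)}
    (h : ∀ n, A n ≤ A' n) : XA D gen A ≤ XA D gen A' :=
  fun _ hω => ⟨hω.1, fun n ι hι => h n (hω.2 n ι hι)⟩

theorem cfg_XA (D : Data C W) (gen : C × W → Γ) (A : ∀ n, AddSubgroup (Fin (D.N n) × C → W)) :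
    Cfg gen (XA D gen A) := by
  classical
  refine ⟨fun ω hω => hω.1, fun ω hω γ => ⟨fun g c w => ?_, fun n ι hι => ?_⟩,
    fun ω hω => ⟨fun g c w => ?_, fun n ι hι => ?_⟩⟩
  · have := hω.1 (γ * g) c w
    simpa only [mul_assoc] using this
  · exact hω.2 n (fun a => γ * ι a) fun a c => by
      simp only [hι a c, mul_assoc]
  · obtain ⟨ω', h', hs⟩ := hω {g, g * gen (c, w)}
    rw [← hs g (by simp), ← hs (g * gen (c, w)) (by simp)]
    exact h'.1 g c w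
  · obtain ⟨ω', h', hs⟩ := hω (Finset.univ.image ι)
    have e : wd ι ω = wd ι ω' := by
      funext e
      unfold wd
      rw [hs (ι e.1) (Finset.mem_image_of_mem _ (Finset.mem_univ _))]
    rw [e]
    exact h'.2 n ι hι

/-- bound for the number of edges that meet a gate -/
def gsz (D : Data C W) (n : ℕ) : ℕ := 2 * ((2 * Fintype.card C + 1) ^ (5 * D.ℓ n) * Fintype.card C)

/-- onto on sets of at most `g` coordinates -/
def Onto {E : Type} (A : AddSubgroup (E → W)) (g : ℕ) : Prop :=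
  ∀ B : Finset E, B.card ≤ g → ∀ z : E → W, ∃ u ∈ A, ∀ e ∈ B, u e = z e

/-- a configuration that is correct up to time `t0` -/
def Valid {D : Data C W} {gen : C × W → Γ} {n0 : ℕ} (B : Birth D gen n0)
    (A : ∀ n, AddSubgroup (Fin (D.N n) × C → W)) (t0 : ℕ ×ₗ ℕ) (ω : Γ → C × Bool → W) : Prop :=
  (∀ g c w, max (B.β g) (B.β (g * gen (c, w))) ≤ t0 →
    ω g (c, true) = ω (g * gen (c, w)) (c, false)) ∧
  ∀ t ≤ t0, ∀ n ι, B.big t = some ⟨n, ι⟩ → wd ι ω ∈ A n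

end Data

/-- EXT2: a configuration that is correct up to some time extends -/
def St_EXT2 : Prop := ∀ (C W : Type) [Fintype C] [AddCommGroup W] (D : Data C W) (Γ : Type)
  [Group Γ] (gen : C × W → Γ) (n0 : ℕ) (B : Birth D gen n0)
  (A : ∀ n, AddSubgroup (Fin (D.N n) × C → W)), (∀ n, Onto (A n) (gsz D n)) →
  ∀ t0 ω0, Valid B A t0 ω0 → ∃ ω ∈ XA D gen A, ∀ g, B.β g ≤ t0 → ω g = ω0 g

/-- MEA2: expansion and the exact value of the trace (from CON, EXT2) -/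
def St_MEA2 : Prop := ∀ (C W : Type) [Fintype C] [DecidableEq C] [Fintype W] [AddCommGroup W]
  (D : Data C W) (Γ : Type) [Group Γ] (gen : C × W → Γ)
  (A : ∀ n, AddSubgroup (Fin (D.N n) × C → W)) (h : Cfg gen (XA D gen A)),
  (∀ n0, Nonempty (Birth D gen n0)) → Fintype.card C = 200 → (∀ w : W, w + w = 0) →
  (∀ n, A n ≤ adm D Set.univ n) → (∀ n, D.y n ∈ A n) → (∀ n, Onto (A n) (gsz D n)) →
  (Summable fun n => 1 / (Nat.card (A n) : ℝ)) →
  (∀ ω, Expands (sig h ω)) ∧ ∀ (m : MeasurableSpace (XA D gen A)) (μ : Measure (XA D gen A)),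
    Haar _ m μ → Integrable (fun ω => 1 / ((orb (sig h ω) 1).ncard : ℝ)) μ ∧
      ∫ ω, 1 / ((orb (sig h ω) 1).ncard : ℝ) ∂μ = ∑' n, 1 / (Nat.card (A n) : ℝ)

end Pool.Agent.Lib.DG
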