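import Pool.Agent.Lib.DG.Blue
import Pool.Agent.Lib.IT.EXT

/-! Block EXT2: extension of configurations along the birth order. -/

set_option linter.unusedSectionVars false

namespace Pool.Agent.Lib.DG

open Finset Pool.Agent.Lib.IT

section
variable {C W : Type} [Fintype C] [AddCommGroup W] {D : Data C W} {Γ : Type} [Group Γ]
  {gen : C × W → Γ} {n0 : ℕ}

open scoped Classical in
/-- the edges that meet the gate -/
noncomputable def gateE (B : Birth D gen n0) (t : ℕ ×ₗ ℕ) {n : ℕ} (ι : Fin (D.N n) → Γ) :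
    Finset (Fin (D.N n) × C) :=
  univ.filter fun e => B.β (ι e.1) < t ∨ B.β (ι (D.π n e.2 e.1)) < t

theorem mem_gateE {B : Birth D gen n0} {t : ℕ ×ₗ ℕ} {n : ℕ} {ι : Fin (D.N n) → Γ}
    {e : Fin (D.N n) × C} :
    e ∈ gateE B t ι ↔ B.β (ι e.1) < t ∨ B.β (ι (D.π n e.2 e.1)) < t := by
  simp [gateE]

theorem card_gateE (B : Birth D gen n0) {t : ℕ ×ₗ ℕ} {n : ℕ} {ι : Fin (D.N n) → Γ}
    (ht : B.big t = some ⟨n, ι⟩) : (gateE B t ι).card ≤ gsz D n := by
  classical
  set P : Finset (Fin (D.N n)) := univ.filter fun a => B.β (ι a) < t with hP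
  have hPc : P.card ≤ (2 * Fintype.card C + 1) ^ (5 * D.ℓ n) := B.gate_card t n ι ht
  have hsub : gateE B t ι ⊆
      (P ×ˢ univ) ∪ (P ×ˢ univ).image (fun e => ((D.π n e.2).symm e.1, e.2)) := by
    rintro ⟨a, c⟩ he
    rcases mem_gateE.1 he with h | h
    · exact mem_union_left _ (by simpa [hP] using h)
    · exact mem_union_right _ (mem_image.2 ⟨(D.π n c a, c), by simpa [hP] using h, by simp⟩)
  have h1 : (P ×ˢ (univ : Finset C)).card = P.card * Fintype.card C := by
    rw [card_product, card_univ]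
  have h2 := card_union_le (P ×ˢ (univ : Finset C))
    ((P ×ˢ univ).image (fun e => ((D.π n e.2).symm e.1, e.2)))
  have h3 := card_image_le (s := P ×ˢ (univ : Finset C))
    (f := fun e => ((D.π n e.2).symm e.1, e.2))
  have h4 := card_le_card hsub
  have h5 := Nat.mul_le_mul_right (Fintype.card C) hPc
  unfold gsz
  omega

namespace EXT2

variable (B : Birth D gen n0) (A : ∀ n, AddSubgroup (Fin (D.N n) × C → W))

/-- what the word chosen on a new copy has to satisfy -/
def Spec (t : ℕ ×ₗ ℕ) (n : ℕ) (ι : Fin (D.N n) → Γ)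
    (prev : Γ → C × Bool → W) (u : Fin (D.N n) × C → W) : Prop :=
  u ∈ A n ∧ (∀ a c, B.β (ι a) < t → u (a, c) = prev (ι a) (c, true)) ∧
    (∀ a c, ¬ B.β (ι a) < t → B.β (ι (D.π n c a)) < t →
      u (a, c) = prev (ι (D.π n c a)) (c, false))

theorem spec_exists (hA : ∀ n, Onto (A n) (gsz D n)) (t : ℕ ×ₗ ℕ) (n : ℕ) (ι : Fin (D.N n) → Γ)
    (ht : B.big t = some ⟨n, ι⟩) (prev : Γ → C × Bool → W) : ∃ u, Spec B A t n ι prev u := by
  classical
  obtain ⟨u, hu, huE⟩ := hA n (gateE B t ι) (card_gateE B ht) (fun e =>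
    if B.β (ι e.1) < t then prev (ι e.1) (e.2, true) else prev (ι (D.π n e.2 e.1)) (e.2, false))
  refine ⟨u, hu, fun a c h => ?_, fun a c h h' => ?_⟩
  · rw [huE (a, c) (mem_gateE.2 (Or.inl h))]
    simp [h]
  · rw [huE (a, c) (mem_gateE.2 (Or.inr h'))]
    simp [h]

open scoped Classical in
/-- the word on a new copy -/
noncomputable def U (t : ℕ ×ₗ ℕ) (n : ℕ)
    (ι : Fin (D.N n) → Γ) (prev : Γ → C × Bool → W) : Fin (D.N n) × C → W :=
  if h : ∃ u, Spec B A t n ι prev u then h.choose else 0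

theorem U_spec (hA : ∀ n, Onto (A n) (gsz D n)) (t : ℕ ×ₗ ℕ) (n : ℕ) (ι : Fin (D.N n) → Γ)
    (ht : B.big t = some ⟨n, ι⟩) (prev : Γ → C × Bool → W) :
    Spec B A t n ι prev (U B A t n ι prev) := by
  have h := spec_exists B A hA t n ι ht prev
  unfold U
  rw [dif_pos h]
  exact h.choose_spec

open scoped Classical in
/-- one step of the recursion -/
noncomputable def S (t : ℕ ×ₗ ℕ) (prev : Γ → C × Bool → W) (g : Γ) (p : C × Bool) : W :=
  (B.big t).elim (extW B t prev) fun x =>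
    if h : ∃ a, x.2 a = g then U B A t x.1 x.2 prev (edge (D.π x.1) h.choose p) else 0

open scoped Classical in
theorem rec_exists (t0 : ℕ ×ₗ ℕ) (ω0 : Γ → C × Bool → W) : ∃ ω : Γ → C × Bool → W,
    ∀ g, ω g = if B.β g ≤ t0 then ω0 g else
      S B A (B.β g) (fun g' => if B.β g' < B.β g then ω g' else 0) g := by
  have wf : WellFounded (InvImage (· < ·) B.β) := InvImage.wf _ wellFounded_lt
  refine ⟨wf.fix (C := fun _ => C × Bool → W) fun g r => if B.β g ≤ t0 then ω0 g else
    S B A (B.β g) (fun g' => if h : B.β g' < B.β g then r g' h else 0) g, fun g => ?_⟩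
  rw [wf.fix_eq]
  simp only [dite_eq_ite]

end EXT2

end

open EXT2 in
theorem stEXT2 : St_EXT2 := by
  classical
  intro C W _ _ D Γ _ gen n0 B A hA t0 ω0 hV
  obtain ⟨ω, hω'⟩ := rec_exists B A t0 ω0
  have h0 : ∀ g, B.β g ≤ t0 → ω g = ω0 g := fun g hg => by rw [hω' g, if_pos hg]
  set pv : ℕ ×ₗ ℕ → Γ → C × Bool → W := fun t g' => if B.β g' < t then ω g' else 0 with hpv
  have hω : ∀ g, t0 < B.β g → ω g = S B A (B.β g) (pv (B.β g)) g := fun g hg => by
    rw [hω' g, if_neg (not_le.2 hg)]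
  have hpl : ∀ t g, B.β g < t → pv t g = ω g := fun t g h => if_pos h
  have hborn : ∀ t n ι, t0 < t → B.big t = some ⟨n, ι⟩ → ∀ a p, B.β (ι a) = t →
      ω (ι a) p = U B A t n ι (pv t) (edge (D.π n) a p) := by
    intro t n ι h ht a p ha
    have hex : ∃ a', ι a' = ι a := ⟨a, rfl⟩
    rw [hω (ι a) (ha ▸ h), ha]
    unfold S
    rw [ht]
    simp only [Option.elim_some]
    rw [dif_pos hex, B.inj t n ι ht hex.choose_spec]
  have hfw : ∀ t n ι, t0 < t → B.big t = some ⟨n, ι⟩ → ∀ a c,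
      ω (ι a) (c, true) = U B A t n ι (pv t) (a, c) := by
    intro t n ι h1 ht a c
    rcases (B.le t n ι ht a).lt_or_eq with h | h
    · rw [(U_spec B A hA t n ι ht (pv t)).2.1 a c h, hpl t _ h]
    · rw [hborn t n ι h1 ht a _ h]
      rfl
  have hsm : ∀ g p, t0 < B.β g → B.big (B.β g) = none →
      ω g p = extW B (B.β g) (pv (B.β g)) := by
    intro g p h1 hg
    rw [hω g h1]
    unfold S
    rw [hg]
    rfl
  refine ⟨ω, ⟨fun g c w => ?_, fun n ι hι => ?_⟩, h0⟩
  · rcases le_or_gt (max (B.β g) (B.β (g * gen (c, w)))) t0 with hle | hlt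
    · rw [h0 _ ((le_max_left _ _).trans hle), h0 _ ((le_max_right _ _).trans hle)]
      exact hV.1 g c w hle
    rcases hb : B.big (max (B.β g) (B.β (g * gen (c, w)))) with _ | ⟨n, ι⟩
    · obtain ⟨-, huniq⟩ := B.edge_small g (c, w) hb
      set t := max (B.β g) (B.β (g * gen (c, w))) with ht
      have hex : ∃ e : Γ × (C × W), max (B.β e.1) (B.β (e.1 * gen e.2)) = t := ⟨(g, (c, w)), rfl⟩
      obtain ⟨e1, e2⟩ := huniq _ _ hex.choose_spec
      have hW : extW B t (pv t) = if B.β g < t then pv t g (c, true)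
          else pv t (g * gen (c, w)) (c, false) := by
        unfold extW
        rw [dif_pos hex, e1, e2]
      rcases lt_trichotomy (B.β g) (B.β (g * gen (c, w))) with h | h | h
      · have e : t = B.β (g * gen (c, w)) := max_eq_right h.le
        rw [hsm (g * gen (c, w)) _ (e ▸ hlt) (e ▸ hb), ← e, hW, if_pos (e ▸ h), hpl t g (e ▸ h)]
      · have e : t = B.β g := max_eq_left h.ge
        rw [hsm g _ (e ▸ hlt) (e ▸ hb), hsm (g * gen (c, w)) _ (h ▸ e ▸ hlt) (h ▸ e ▸ hb), ← h]
      · have e : t = B.β g := max_eq_left h.le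
        rw [hsm g _ (e ▸ hlt) (e ▸ hb), ← e, hW, if_neg (e ▸ lt_irrefl _), hpl t _ (e ▸ h)]
    · obtain ⟨a, ha, hy⟩ := B.edge_big g (c, w) n ι hb
      set t := max (B.β g) (B.β (g * gen (c, w))) with ht
      have hn : ι (D.π n c a) = g * gen (c, w) := by
        rw [B.hom t n ι hb a c, ha]
        exact congrArg (fun x => g * gen (c, x)) hy
      rw [← hn, ← ha, hfw t n ι hlt hb a c]
      rcases (B.le t n ι hb (D.π n c a)).lt_or_eq with h | h
      · have hg : ¬ B.β (ι a) < t := by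
          rw [ha]
          rw [hn] at h
          intro h'
          exact absurd (max_lt h' h) (lt_irrefl _)
        rw [(U_spec B A hA t n ι hb (pv t)).2.2 a c hg h, hpl t _ h]
      · rw [hborn t n ι hlt hb _ _ h]
        simp [edge]
  · obtain ⟨t, ht⟩ := B.all n ι hι
    rcases le_or_gt t t0 with hle | hlt
    · have : wd ι ω = wd ι ω0 := funext fun e => by
        unfold wd
        rw [h0 _ ((B.le t n ι ht _).trans hle)]
      rw [this]
      exact hV.2 t hle n ι ht
    · have : wd ι ω = U B A t n ι (pv t) := funext fun e => hfw t n ι hlt ht e.1 e.2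
      rw [this]
      exact (U_spec B A hA t n ι ht (pv t)).1

end Pool.Agent.Lib.DG
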