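import Pool.Agent.Lib.DG.Blue

/-! Traces of idempotent matrices over `l1` as sums of countably many series. -/

set_option linter.unusedSectionVars false
set_option linter.unusedVariables false
set_option linter.style.haveILetI false
set_option linter.unusedSimpArgs false

noncomputable section

namespace Pool.Agent.Lib.DG

open Finset Filter Function Topology

namespace L1

section Abstract
variable {A B : Type}

/-- the Newton iteration for idempotents -/
def nw [Ring A] (a : A) : ℕ → A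
  | 0 => a
  | j + 1 => 3 • (nw a j * nw a j) - 2 • (nw a j * nw a j * nw a j)

theorem map_nw [Ring A] [Ring B] (f : A →+* B) (a : A) (j : ℕ) : f (nw a j) = nw (f a) j := by
  induction j with
  | zero => rfl
  | succ j ih => simp only [nw, map_sub, map_nsmul, map_mul, ih]

theorem nw_step [SeminormedRing A] (a : A) (j : ℕ) :
    ‖nw a (j + 1) - nw a j‖ ≤ (1 + 2 * ‖nw a j‖) * ‖nw a j * nw a j - nw a j‖ := by
  obtain ⟨x, hx⟩ : ∃ x, x = nw a j := ⟨_, rfl⟩
  have h : nw a (j + 1) - nw a j = (x * x - x) - 2 • (x * (x * x - x)) := by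
    rw [nw, ← hx]; noncomm_ring
  rw [h, ← hx]
  have h1 := norm_sub_le (x * x - x) (2 • (x * (x * x - x)))
  have h2 := norm_nsmul_le (a := x * (x * x - x)) (n := 2)
  have h3 := norm_mul_le x (x * x - x)
  push_cast at h2
  linarith

theorem nw_def [SeminormedRing A] (a : A) (j : ℕ) (h : 4 * ‖nw a j * nw a j - nw a j‖ ≤ 1) :
    ‖nw a (j + 1) * nw a (j + 1) - nw a (j + 1)‖ ≤ 4 * ‖nw a j * nw a j - nw a j‖ ^ 2 := by
  obtain ⟨x, hx⟩ : ∃ x, x = nw a j := ⟨_, rfl⟩
  obtain ⟨b, hb⟩ : ∃ b, b = x * x - x := ⟨_, rfl⟩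
  have h0 : nw a (j + 1) * nw a (j + 1) - nw a (j + 1) = 4 • (b * b * b) - 3 • (b * b) := by
    rw [nw, ← hx, hb]; noncomm_ring
  rw [← hx, ← hb] at h
  rw [h0, ← hx, ← hb]
  have h1 := norm_sub_le (4 • (b * b * b)) (3 • (b * b))
  have h2 := norm_nsmul_le (a := b * b * b) (n := 4)
  have h3 := norm_nsmul_le (a := b * b) (n := 3)
  have h4 := norm_mul_le (b * b) b
  have h5 := norm_mul_le b b
  have h6 := norm_nonneg (b * b)
  push_cast at h2 h3
  nlinarith

theorem newton [SeminormedRing A] {a : A} {R β : ℝ} (hR : ‖a‖ ≤ R) (hβ : ‖a * a - a‖ ≤ β)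
    (h1 : 16 * β ≤ 1) (h2 : 8 * (2 * R + 3) * β ≤ 1) (j : ℕ) :
    4 * ‖nw a j * nw a j - nw a j‖ ≤ (1 / 4) ^ 2 ^ j ∧
      ‖nw a j * nw a j - nw a j‖ ≤ β * (1 / 2) ^ j ∧ ‖nw a j - a‖ ≤ (1 - (1 / 2) ^ j) / 4 := by
  have hR0 : 0 ≤ R := (norm_nonneg _).trans hR
  induction j with
  | zero => exact ⟨by simp only [nw]; norm_num; linarith, by simpa [nw] using hβ, by simp [nw]⟩
  | succ j ih =>
    obtain ⟨i1, i2, i3⟩ := ih
    have h3 : ((1 : ℝ) / 4) ^ 2 ^ j ≤ 1 / 4 :=
      pow_le_of_le_one (by norm_num) (by norm_num) (by positivity)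
    have h4 := nw_def a j (by linarith)
    have h5 := nw_step a j
    have h6 := norm_nonneg (nw a j * nw a j - nw a j)
    have h7 : (0 : ℝ) < (1 / 2) ^ j := by positivity
    have h8 : ‖nw a j‖ ≤ R + 1 := by
      have := norm_le_insert' (nw a j) a
      linarith
    refine ⟨?_, ?_, ?_⟩
    · rw [pow_succ 2 j, pow_mul]
      nlinarith
    · rw [pow_succ]
      nlinarith
    · have h9 := norm_sub_le_norm_sub_add_norm_sub (nw a (j + 1)) (nw a j) a
      have h10 : (1 + 2 * ‖nw a j‖) * ‖nw a j * nw a j - nw a j‖ ≤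
          (2 * R + 3) * (β * (1 / 2) ^ j) := mul_le_mul (by linarith) i2 h6 (by linarith)
      rw [pow_succ]
      nlinarith

theorem newton_step [SeminormedRing A] {a : A} {R β : ℝ} (hR : ‖a‖ ≤ R) (hβ : ‖a * a - a‖ ≤ β)
    (h1 : 16 * β ≤ 1) (h2 : 8 * (2 * R + 3) * β ≤ 1) (j : ℕ) :
    ‖nw a (j + 1) - nw a j‖ ≤ (2 * R + 3) * (1 / 2) ^ 2 ^ (j + 1) := by
  obtain ⟨i1, -, i3⟩ := newton hR hβ h1 h2 j
  have hR0 : 0 ≤ R := (norm_nonneg _).trans hR
  have h7 : (0 : ℝ) < (1 / 2) ^ j := by positivity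
  have h8 : ‖nw a j‖ ≤ R + 1 := by
    have := norm_le_insert' (nw a j) a
    linarith
  have h6 := norm_nonneg (nw a j * nw a j - nw a j)
  refine (nw_step a j).trans (mul_le_mul (by linarith) ?_ h6 (by linarith))
  rw [pow_succ' 2 j, pow_mul]
  norm_num at i1 ⊢
  linarith

theorem half_le (j : ℕ) : ((1 : ℝ) / 2) ^ 2 ^ (j + 1) ≤ (1 / 2) ^ j :=
  pow_le_pow_of_le_one (by norm_num) (by norm_num) ((Nat.le_succ j).trans Nat.lt_two_pow_self.le)

theorem tr_idem [NormedRing B] (T : B →+ ℝ) (hT : ∀ x, |T x| ≤ ‖x‖)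
    (hc : ∀ x y, T (x * y) = T (y * x)) {e f : B} (he : e * e = e) (hf : f * f = f)
    (h : ‖e - f‖ ≤ 1 / 2) : T e = T f := by
  have he' : ∀ x, e * (e * x) = e * x := fun x => by rw [← mul_assoc, he]
  have hf' : ∀ x, f * (f * x) = f * x := fun x => by rw [← mul_assoc, hf]
  obtain ⟨c, hcd⟩ : ∃ c, c = (e - f) * (e - f) := ⟨_, rfl⟩
  have c1 : Commute e c := by
    rw [hcd, Commute, SemiconjBy]
    simp only [mul_sub, sub_mul, mul_assoc, he, hf, he', hf']
    abel
  have c2 : Commute f c := by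
    rw [hcd, Commute, SemiconjBy]
    simp only [mul_sub, sub_mul, mul_assoc, he, hf, he', hf']
    abel
  have c3 : c * (e - f) = e - f - e * f * e + f * e * f := by
    rw [hcd]
    simp only [mul_sub, sub_mul, mul_assoc, he, hf, he', hf']
    abel
  have h1 : ∀ k : ℕ, T (c ^ k * (e - f)) = T (e - f) ∧ ‖c ^ k * (e - f)‖ ≤ (1 / 2) ^ k := by
    intro k
    induction k with
    | zero => exact ⟨by simp, by simp only [pow_zero, one_mul]; linarith⟩
    | succ k ih =>
      constructor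
      · have h2 : T (c ^ k * (e * f * e)) = T (c ^ k * (e * f)) := by
          rw [← mul_assoc, hc, ← mul_assoc, (c1.pow_right k).eq, mul_assoc, he']
        have h3 : T (c ^ k * (f * e * f)) = T (c ^ k * (e * f)) := by
          rw [← mul_assoc, hc, ← mul_assoc, (c2.pow_right k).eq, mul_assoc, hf', ← mul_assoc, hc,
            ← mul_assoc, (c1.pow_right k).eq, mul_assoc]
        rw [pow_succ, mul_assoc, c3, mul_add, mul_sub _ (e - f), map_add, map_sub, h2, h3, ih.1]
        ring
      · rw [pow_succ', mul_assoc, pow_succ']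
        have h2 := norm_mul_le (e - f) (e - f)
        rw [← hcd] at h2
        refine (norm_mul_le _ _).trans (mul_le_mul ?_ ih.2 (norm_nonneg _) (by norm_num))
        nlinarith [norm_nonneg (e - f)]
  rw [← sub_eq_zero, ← map_sub, ← abs_nonpos_iff]
  exact ge_of_tendsto' (tendsto_pow_atTop_nhds_zero_of_lt_one (r := (1 / 2 : ℝ)) (by norm_num)
    (by norm_num)) fun k => (h1 k).1 ▸ (hT _).trans (h1 k).2

theorem tr_lim [SeminormedRing A] (T : A →+ ℝ) (hT : ∀ x, |T x| ≤ ‖x‖)
    (hc : ∀ x y, T (x * y) = T (y * x)) {x y : ℕ → A} (hx : CauchySeq x) (hy : CauchySeq y)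
    (hx' : Tendsto (fun m => ‖x m * x m - x m‖) atTop (𝓝 0))
    (hy' : Tendsto (fun m => ‖y m * y m - y m‖) atTop (𝓝 0))
    (h : ∀ᶠ m in atTop, ‖x m - y m‖ ≤ 1 / 2) {s : ℝ} (hs : Tendsto (fun m => T (x m)) atTop (𝓝 s)) :
    Tendsto (fun m => T (y m)) atTop (𝓝 s) := by
  have hTc : Continuous T := AddMonoidHomClass.continuous_of_bound T 1 fun x => by simpa using hT x
  let S := T.extension hTc
  have hS : Continuous S := T.continuous_extension hTc
  have hS' : ∀ a : A, S a = T a := T.extension_coe hTc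
  have key : ∀ x : ℕ → A, CauchySeq x → Tendsto (fun m => ‖x m * x m - x m‖) atTop (𝓝 0) →
      ∃ e : UniformSpace.Completion A, e * e = e ∧
        Tendsto (fun m => (x m : UniformSpace.Completion A)) atTop (𝓝 e) := by
    intro x hx hx'
    obtain ⟨e, he⟩ := cauchySeq_tendsto_of_complete
      ((UniformSpace.Completion.uniformContinuous_coe A).comp_cauchySeq hx)
    refine ⟨e, ?_, he⟩
    have h1 := ((he.mul he).sub he).norm
    simp only [Function.comp_apply, ← UniformSpace.Completion.coe_mul,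
      ← UniformSpace.Completion.coe_sub, UniformSpace.Completion.norm_coe] at h1
    exact sub_eq_zero.1 (norm_eq_zero.1 (tendsto_nhds_unique h1 hx'))
  obtain ⟨e, he, he'⟩ := key x hx hx'
  obtain ⟨f, hf, hf'⟩ := key y hy hy'
  have h1 : S e = S f := by
    refine tr_idem S (fun z => ?_) (fun z w => ?_) he hf ?_
    · induction z using UniformSpace.Completion.induction_on with
      | hp => exact isClosed_le hS.abs continuous_norm
      | ih a => rw [hS', UniformSpace.Completion.norm_coe]; exact hT a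
    · induction z, w using UniformSpace.Completion.induction_on₂ with
      | hp => exact isClosed_eq (by fun_prop) (by fun_prop)
      | ih a b =>
        rw [← UniformSpace.Completion.coe_mul, ← UniformSpace.Completion.coe_mul, hS', hS', hc]
    · refine le_of_tendsto (he'.sub hf').norm (h.mono fun m hm => ?_)
      rwa [← UniformSpace.Completion.coe_sub, UniformSpace.Completion.norm_coe]
  have h2 := (hS.tendsto e).comp he'
  have h3 := (hS.tendsto f).comp hf'
  simp only [Function.comp_def, hS'] at h2 h3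
  rwa [← h1, tendsto_nhds_unique h2 hs] at h3

end Abstract

section Norm
variable {G H : Type}

/-- a bound for the `l1` norm -/
def Bd (u : H → ℝ) (c : ℝ) : Prop := ∀ s : Finset H, ∑ g ∈ s, |u g| ≤ c

/-- the `l1` norm -/
def l1 (f : H →₀ ℝ) : ℝ := f.sum fun _ x => |x|

theorem bd_l1 (f : H →₀ ℝ) : Bd f (l1 f) := fun s => by
  classical
  refine (sum_le_sum_of_subset_of_nonneg (subset_union_left (s₂ := f.support))
    fun _ _ _ => abs_nonneg _).trans_eq (sum_subset subset_union_right fun g _ hg => ?_).symm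
  simp [Finsupp.notMem_support_iff.1 hg]

theorem Bd.l1_le {f : H →₀ ℝ} {c : ℝ} (h : Bd f c) : l1 f ≤ c := h _

theorem Bd.nonneg {u : H → ℝ} {c : ℝ} (h : Bd u c) : 0 ≤ c := by simpa using h ∅

theorem Bd.abs_le {u : H → ℝ} {c : ℝ} (h : Bd u c) (g : H) : |u g| ≤ c := by simpa using h {g}

theorem Bd.summable {u : H → ℝ} {c : ℝ} (h : Bd u c) : Summable fun g => |u g| :=
  summable_of_sum_le (fun _ => abs_nonneg _) h

theorem Bd.add {u v : H → ℝ} {c d : ℝ} (h : Bd u c) (h' : Bd v d) :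
    Bd (fun g => u g + v g) (c + d) := fun s =>
  (sum_le_sum fun g _ => abs_add_le _ _).trans (by rw [sum_add_distrib]; linarith [h s, h' s])

theorem Bd.neg {u : H → ℝ} {c : ℝ} (h : Bd u c) : Bd (fun g => -u g) c := fun s => by
  simpa using h s

theorem bd_sum {ι : Type} (t : Finset ι) {u : ι → H → ℝ} {c : ι → ℝ} (h : ∀ i, Bd (u i) (c i)) :
    Bd (fun g => ∑ i ∈ t, u i g) (∑ i ∈ t, c i) := fun s =>
  (sum_le_sum fun g _ => abs_sum_le_sum_abs _ _).trans
    (by rw [sum_comm]; exact sum_le_sum fun i _ => h i s)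

theorem l1_nonneg (f : H →₀ ℝ) : 0 ≤ l1 f := (bd_l1 f).nonneg

theorem l1_add (f g : H →₀ ℝ) : l1 (f + g) ≤ l1 f + l1 g :=
  Bd.l1_le ((bd_l1 f).add (bd_l1 g))

theorem l1_sum {ι : Type} (t : Finset ι) (f : ι → H →₀ ℝ) :
    l1 (∑ i ∈ t, f i) ≤ ∑ i ∈ t, l1 (f i) :=
  Bd.l1_le (by simpa only [Finsupp.coe_finsetSum, Finset.sum_fn] using bd_sum t fun i => bd_l1 (f i))

theorem l1_smul (c : ℝ) (f : H →₀ ℝ) : l1 (c • f) ≤ |c| * l1 f := Bd.l1_le fun s => by
  simp only [Finsupp.smul_apply, smul_eq_mul, abs_mul, ← mul_sum]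
  exact mul_le_mul_of_nonneg_left (bd_l1 f s) (abs_nonneg c)

theorem l1_mapDomain (ρ : G → H) (f : G →₀ ℝ) : l1 (f.mapDomain ρ) ≤ l1 f :=
  (l1_sum _ _).trans_eq (sum_congr rfl fun g _ => Finsupp.sum_single_index abs_zero)

variable [Group G] [Group H]

theorem Bd.summable_conv {u v : H → ℝ} {c d : ℝ} (h : Bd u c) (h' : Bd v d) (g : H) :
    Summable fun x => |u x * v (x⁻¹ * g)| :=
  (h.summable.mul_right d).of_nonneg_of_le (fun _ => abs_nonneg _) fun x => by
    rw [abs_mul]; exact mul_le_mul_of_nonneg_left (h'.abs_le _) (abs_nonneg _)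

theorem Bd.conv {u v : H → ℝ} {c d : ℝ} (h : Bd u c) (h' : Bd v d) :
    Bd (fun g => ∑' x, u x * v (x⁻¹ * g)) (c * d) := fun s => by
  classical
  have h0 : ∀ g, |∑' x, u x * v (x⁻¹ * g)| ≤ ∑' x, |u x * v (x⁻¹ * g)| := fun g => by
    simpa only [Real.norm_eq_abs] using norm_tsum_le_tsum_norm (f := fun x => u x * v (x⁻¹ * g))
      (by simpa only [Real.norm_eq_abs] using h.summable_conv h' g)
  refine (sum_le_sum fun g _ => h0 g).trans ?_
  rw [← Summable.tsum_finsetSum fun g _ => h.summable_conv h' g]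
  refine (Summable.tsum_le_tsum (g := fun x => |u x| * d) (fun x => ?_)
    (summable_sum fun g _ => h.summable_conv h' g) (h.summable.mul_right d)).trans ?_
  · simp only [abs_mul, ← mul_sum]
    refine mul_le_mul_of_nonneg_left ?_ (abs_nonneg _)
    have := h' (s.image fun g => x⁻¹ * g)
    rwa [sum_image fun _ _ _ _ h => mul_left_cancel h] at this
  · rw [tsum_mul_right]
    exact mul_le_mul_of_nonneg_right (h.summable.tsum_le_of_sum_le h) h'.nonneg

theorem coeff_mul (x y : MonoidAlgebra ℝ H) (g : H) :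
    (x * y).coeff g = ∑' h, x.coeff h * y.coeff (h⁻¹ * g) := by
  rw [MonoidAlgebra.coeff_mul_apply_left, tsum_eq_sum (s := x.coeff.support) fun h hh => by
    rw [Finsupp.notMem_support_iff.1 hh, zero_mul]]
  rfl

theorem l1_mul (x y : MonoidAlgebra ℝ H) : l1 (x * y).coeff ≤ l1 x.coeff * l1 y.coeff :=
  Bd.l1_le fun s => by simpa only [coeff_mul] using (bd_l1 x.coeff).conv (bd_l1 y.coeff) s

/-- matrices over the group algebra -/
abbrev Mat (r : ℕ) (H : Type) [Group H] : Type := Matrix (Fin r) (Fin r) (MonoidAlgebra ℝ H)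

variable {r : ℕ}

/-- the `l1` norm of a matrix -/
def NN (r : ℕ) (H : Type) [Group H] : RingSeminorm (Mat r H) where
  toFun x := ∑ i, ∑ j, l1 (x i j).coeff
  map_zero' := by simp [l1]
  add_le' x y := by
    simp only [← sum_add_distrib]
    exact sum_le_sum fun i _ => sum_le_sum fun j _ => l1_add _ _
  neg' x := by simp [l1, Finsupp.sum]
  mul_le' x y := by
    rw [sum_mul]
    refine sum_le_sum fun i _ => ?_
    calc ∑ k, l1 ((x * y) i k).coeff ≤ ∑ k, ∑ j, l1 (x i j).coeff * l1 (y j k).coeff :=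
          sum_le_sum fun k _ => by
            rw [Matrix.mul_apply, MonoidAlgebra.coeff_sum]
            exact (l1_sum _ _).trans (sum_le_sum fun j _ => l1_mul _ _)
      _ ≤ _ := by
          rw [sum_comm, sum_mul]
          refine sum_le_sum fun j _ => ?_
          rw [← mul_sum]
          exact mul_le_mul_of_nonneg_left (single_le_sum
            (f := fun j => ∑ k, l1 (y j k).coeff)
            (fun j _ => sum_nonneg fun k _ => l1_nonneg _) (mem_univ j)) (l1_nonneg _)

theorem NN_le {x : Mat r H} {c : ℝ} (h : ∀ i j, Bd (x i j).coeff c) : NN r H x ≤ r * (r * c) := by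
  change ∑ i, ∑ j, l1 (x i j).coeff ≤ _
  exact (sum_le_sum fun i _ => sum_le_sum fun j _ => (h i j).l1_le).trans_eq (by simp)

theorem l1_trace (x : Mat r H) : l1 x.trace.coeff ≤ NN r H x := by
  rw [Matrix.trace, MonoidAlgebra.coeff_sum]
  exact (l1_sum _ _).trans (sum_le_sum fun i _ =>
    single_le_sum (f := fun j => l1 (x i j).coeff) (fun j _ => l1_nonneg _) (mem_univ i))

/-- the trace -/
def TT (r : ℕ) (H : Type) [Group H] : Mat r H →+ ℝ where
  toFun x := x.trace.coeff 1
  map_zero' := by simp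
  map_add' x y := by simp

theorem TT_le (x : Mat r H) : |TT r H x| ≤ NN r H x := ((bd_l1 _).abs_le 1).trans (l1_trace x)

theorem TT_apply (x : Mat r H) : TT r H x = ∑ i, (x i i).coeff 1 := by
  change x.trace.coeff 1 = _
  rw [Matrix.trace, MonoidAlgebra.coeff_sum, Finsupp.finsetSum_apply]
  rfl

theorem TT_comm (x y : Mat r H) : TT r H (x * y) = TT r H (y * x) := by
  simp only [TT_apply, Matrix.mul_apply, MonoidAlgebra.coeff_sum, Finsupp.finsetSum_apply]
  rw [sum_comm]
  refine sum_congr rfl fun i _ => sum_congr rfl fun j _ => ?_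
  rw [MonoidAlgebra.coeff_mul_apply_left, MonoidAlgebra.coeff_mul_apply_right]
  simp only [mul_one, one_mul, mul_comm]

/-- push forward of matrices -/
def push (φ : G →* H) : Mat r G →+* Mat r H := (MonoidAlgebra.mapDomainRingHom ℝ φ).mapMatrix

theorem push_trace (φ : G →* H) (x : Mat r G) :
    x.trace.coeff.mapDomain φ = (push φ x).trace.coeff := by
  simp only [Matrix.trace, MonoidAlgebra.coeff_sum, Finsupp.mapDomain_finsetSum]
  rfl

theorem tK_eq (φ : G →* H) (f : G →₀ ℝ) : tK φ.ker f = f.mapDomain φ 1 := by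
  classical
  unfold tK
  rw [Finsupp.mapDomain, Finsupp.sum_apply, Finsupp.sum, sum_filter]
  refine sum_congr rfl fun g _ => ?_
  rw [Finsupp.single_apply]
  simp only [MonoidHom.mem_ker]

theorem ev_le (φ : G →* H) (K : ℕ → Subgroup G) (hK : Monotone K)
    (h : ∀ g, φ g = 1 ↔ ∃ n, g ∈ K n) (f : G →₀ ℝ) :
    ∀ᶠ n in atTop, nK (K n) f ≤ l1 (f.mapDomain φ) := by
  classical
  have h1 : ∀ᶠ n in atTop, ∀ g ∈ f.support, ∀ g' ∈ f.support, φ g = φ g' → g⁻¹ * g' ∈ K n := by
    refine (eventually_all_finset _).2 fun g _ => (eventually_all_finset _).2 fun g' _ => ?_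
    by_cases hg : φ g = φ g'
    · obtain ⟨n, hn⟩ := (h (g⁻¹ * g')).1 (by simp [hg])
      exact (eventually_ge_atTop n).mono fun m hm _ => hK hm hn
    · exact Eventually.of_forall fun _ h => absurd h hg
  refine h1.mono fun n hn => ?_
  let ρ : H → G ⧸ K n := fun y =>
    QuotientGroup.mk (if h : ∃ g ∈ f.support, φ g = y then h.choose else 1)
  have h2 : f.mapDomain (QuotientGroup.mk : G → G ⧸ K n) = (f.mapDomain φ).mapDomain ρ := by
    rw [← Finsupp.mapDomain_comp]
    refine Finsupp.mapDomain_congr fun g hg => ?_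
    have h3 : ∃ g' ∈ f.support, φ g' = φ g := ⟨g, hg, rfl⟩
    simp only [ρ, Function.comp_apply, dif_pos h3]
    exact QuotientGroup.eq.2 (hn g hg _ h3.choose_spec.1 h3.choose_spec.2.symm)
  exact (congrArg l1 h2).trans_le (l1_mapDomain _ _)

/-- rational coefficients -/
def emb (a : G →₀ ℚ) : MonoidAlgebra ℝ G := .ofCoeff (a.mapRange (fun q : ℚ => (q : ℝ)) Rat.cast_zero)

theorem approx (φ : G →* H) (hφ : Surjective φ) {u : H → ℝ} (hu : Summable fun g => |u g|)
    {ε : ℝ} (hε : 0 < ε) : ∃ a : G →₀ ℚ, Bd (fun g => u g - (emb a).coeff.mapDomain φ g) ε := by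
  classical
  obtain ⟨s, hs⟩ := summable_iff_vanishing_norm.1 hu (ε / 2) (half_pos hε)
  have h1 : ∀ g, ∃ q : ℚ, |u g - q| < ε / 2 / (s.card + 1) := fun g =>
    exists_rat_near (u g) (by positivity)
  choose q hq using h1
  let b : H →₀ ℚ := Finsupp.onFinset s (fun g => if g ∈ s then q g else 0) fun g hg => by
    by_contra h; simp [h] at hg
  refine ⟨b.mapDomain (surjInv hφ), fun t => ?_⟩
  have h2 : ∀ g, (emb (b.mapDomain (surjInv hφ))).coeff.mapDomain φ g =
      if g ∈ s then (q g : ℝ) else 0 := by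
    intro g
    rw [emb, Finsupp.mapDomain_mapRange _ _ _ _ Rat.cast_add, ← Finsupp.mapDomain_comp,
      comp_surjInv hφ, Finsupp.mapDomain_id, Finsupp.mapRange_apply, Finsupp.onFinset_apply]
    split_ifs <;> simp
  simp only [h2]
  rw [← sum_inter_add_sum_sdiff t s]
  have h3 : ∑ g ∈ t ∩ s, |u g - if g ∈ s then (q g : ℝ) else 0| ≤ ε / 2 := by
    refine (sum_le_card_nsmul _ _ (ε / 2 / (s.card + 1)) fun g hg => ?_).trans ?_
    · rw [if_pos (mem_inter.1 hg).2]; exact (hq g).le
    · have h4 : ((t ∩ s).card : ℝ) ≤ s.card + 1 := by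
        exact_mod_cast (card_le_card inter_subset_right).trans (Nat.le_succ _)
      rw [nsmul_eq_mul, mul_div_assoc', div_le_iff₀ (by positivity)]
      nlinarith
  have h4 : ∑ g ∈ t \ s, |u g - if g ∈ s then (q g : ℝ) else 0| ≤ ε / 2 := by
    refine (sum_congr rfl fun g hg => ?_).trans_le
      ((le_abs_self _).trans (hs (t \ s) sdiff_disjoint).le)
    rw [if_neg (mem_sdiff.1 hg).2, sub_zero]
  linarith

theorem defect {e : Fin r → Fin r → H → ℝ} (he : L1Idem e) {R ε : ℝ} (hR : ∀ i j, Bd (e i j) R)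
    {x : Mat r H} (hx : ∀ i j, Bd (fun g => e i j g - (x i j).coeff g) ε) (i k : Fin r) :
    Bd ((x * x - x) i k).coeff (∑ _j : Fin r, ((R + ε) * ε + ε * R) + ε) := by
  have h1 : ∀ i j, Bd (x i j).coeff (R + ε) := fun i j => by
    simpa using (hR i j).add (hx i j).neg
  have h2 := (bd_sum univ fun j => ((h1 i j).conv (hx j k).neg).add
    ((hx i j).neg.conv (hR j k))).add (hx i k)
  convert h2 using 2 with g
  rw [Matrix.sub_apply, Matrix.mul_apply, MonoidAlgebra.coeff_sub, MonoidAlgebra.coeff_sum,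
    Finsupp.sub_apply, Finsupp.finsetSum_apply, ← he.2 i k g, add_sub, ← sum_add_distrib]
  refine congrArg (· - _) (sum_congr rfl fun j _ => ?_)
  rw [coeff_mul, ← (((h1 i j).summable_conv (hx j k).neg g).of_abs).tsum_add
    ((hx i j).neg.summable_conv (hR j k) g).of_abs,
    ← ((((h1 i j).summable_conv (hx j k).neg g).of_abs).add
    ((hx i j).neg.summable_conv (hR j k) g).of_abs).tsum_add
    ((hR i j).summable_conv (hR j k) g).of_abs]
  exact tsum_congr fun h => by ring

/-- elements with support in `U` -/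
def sup (U : Finset G) : Submodule ℝ (MonoidAlgebra ℝ G) where
  carrier := {f | ∀ g, f.coeff g ≠ 0 → g ∈ U}
  add_mem' := fun {a b} ha hb g hg => by
    by_contra h
    exact hg (by simp [not_not.1 (mt (ha g) h), not_not.1 (mt (hb g) h)])
  zero_mem' := fun g hg => absurd rfl hg
  smul_mem' := fun c a ha g hg => ha g fun h => hg (by simp [h])

open scoped Pointwise Classical in
theorem sup_mul {U V : Finset G} {x y : Mat r G} (hx : ∀ i j, x i j ∈ sup U)
    (hy : ∀ i j, y i j ∈ sup V) (i k : Fin r) : (x * y) i k ∈ sup (U * V) := by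
  rw [Matrix.mul_apply]
  refine Submodule.sum_mem _ fun j _ g hg => ?_
  exact mul_subset_mul (fun g hg => hx i j g (Finsupp.mem_support_iff.1 hg))
    (fun g hg => hy j k g (Finsupp.mem_support_iff.1 hg))
    (MonoidAlgebra.support_coeff_mul_subset _ _ (Finsupp.mem_support_iff.2 hg))

open scoped Pointwise Classical in
theorem sup_nw {S : Finset G} (h1 : 1 ∈ S) {a : Mat r G} (ha : ∀ i j, a i j ∈ sup S) (m : ℕ) :
    ∀ i j, nw a m i j ∈ sup (S ^ 3 ^ m) := by
  induction m with
  | zero => simpa [nw] using ha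
  | succ m ih =>
    intro i j
    have h2 : S ^ 3 ^ (m + 1) = S ^ 3 ^ m * S ^ 3 ^ m * S ^ 3 ^ m := by
      rw [← pow_add, ← pow_add, pow_succ]; congr 1; ring
    rw [h2, nw, Matrix.sub_apply, Matrix.smul_apply, Matrix.smul_apply]
    refine sub_mem (nsmul_mem (fun g hg => ?_) _) (nsmul_mem (sup_mul (sup_mul ih ih) ih i j) _)
    exact subset_mul_left _ (one_mem_pow h1) (sup_mul ih ih i j g hg)

/-- the series attached to a matrix -/
def ser (a : Mat r G) (q q' : ℝ) : ℕ → MonoidAlgebra ℝ G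
  | 0 => q • a.trace + q' • 1
  | j + 1 => q • (nw a (j + 1) - nw a j).trace

open scoped Pointwise Classical in
theorem card_ser (a : Mat r G) (q q' : ℝ) :
    ∃ c : ℕ, ∀ j, (ser a q q' j).coeff.support.card ≤ c ^ 3 ^ j := by
  let S : Finset G := insert 1 (univ.biUnion fun p : Fin r × Fin r => (a p.1 p.2).coeff.support)
  have h1 : 1 ∈ S := mem_insert_self _ _
  have h2 : ∀ i j, a i j ∈ sup S := fun i j g hg =>
    mem_insert_of_mem (mem_biUnion.2 ⟨(i, j), mem_univ _, Finsupp.mem_support_iff.2 hg⟩)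
  have h3 : ∀ j, ser a q q' j ∈ sup (S ^ 3 ^ j) := by
    rintro (_ | j)
    · rw [pow_zero, pow_one]
      refine add_mem (Submodule.smul_mem _ _ (Submodule.sum_mem _ fun i _ => h2 i i))
        (Submodule.smul_mem _ _ fun g hg => ?_)
      by_contra h
      refine hg (Finsupp.single_eq_of_ne ?_)
      rintro rfl
      exact h h1
    · refine Submodule.smul_mem _ _ (Submodule.sum_mem _ fun i _ =>
        sub_mem (sup_nw h1 h2 (j + 1) i i) fun g hg => ?_)
      exact pow_subset_pow_right h1 (Nat.pow_le_pow_right (by norm_num) (Nat.le_succ j))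
        (sup_nw h1 h2 j i i g hg)
  exact ⟨S.card, fun j => (card_le_card fun g hg =>
    h3 j g (Finsupp.mem_support_iff.1 hg)).trans card_pow_le⟩

end Norm

end L1

open L1 in
theorem stL1 : St_L1 := by
  intro G _ _
  refine ⟨(Σ r : ℕ, (Fin r → Fin r → G →₀ ℚ)) × ℚ × ℚ, inferInstance,
    fun τ j => (ser (Matrix.of fun i k => emb (τ.1.2 i k)) τ.2.1 τ.2.2 j).coeff,
    fun τ => card_ser _ _ _, ?_⟩
  intro H _ φ hφ K hN hK hker r e he q q'
  obtain ⟨R, hR⟩ : ∃ R, ∀ i j, Bd (e i j) R := by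
    refine ⟨∑ p : Fin r × Fin r, ∑' g, |e p.1 p.2 g|, fun i j s => ?_⟩
    exact ((he.1 i j).sum_le_tsum s fun _ _ => abs_nonneg _).trans
      (single_le_sum (f := fun p : Fin r × Fin r => ∑' g, |e p.1 p.2 g|)
        (fun _ _ => tsum_nonneg fun _ => abs_nonneg _) (mem_univ (i, j)))
  choose a ha using fun (m : ℕ) i j => approx φ hφ (he.1 i j) (Nat.one_div_pos_of_nat (n := m))
  obtain ⟨b, hb⟩ : ∃ b : ℕ → Mat r G, ∀ m, b m = Matrix.of fun i k => emb (a m i k) :=
    ⟨_, fun _ => rfl⟩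
  have hx : ∀ m i j, Bd (fun g => e i j g - (push φ (b m) i j).coeff g) (1 / ((m : ℝ) + 1)) :=
    fun m i j => by rw [hb]; exact ha m i j
  have h0 : Tendsto (fun m : ℕ => 1 / ((m : ℝ) + 1)) atTop (𝓝 0) :=
    tendsto_one_div_add_atTop_nhds_zero_nat
  have hle : ∀ {m n : ℕ}, m ≤ n → 1 / ((n : ℝ) + 1) ≤ 1 / ((m : ℝ) + 1) := fun h =>
    Nat.one_div_le_one_div h
  letI := (NN r H).toSeminormedRing
  have h1 : ∀ n m N, N ≤ n → N ≤ m →
      ‖push φ (b n) - push φ (b m)‖ ≤ r * (r * (2 * (1 / ((N : ℝ) + 1)))) := fun n m N hn hm =>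
    (NN_le (c := 1 / ((n : ℝ) + 1) + 1 / ((m : ℝ) + 1)) fun i j => by
      convert (hx n i j).neg.add (hx m i j) using 2 with g
      simp).trans (by have := hle hn; have := hle hm; gcongr; linarith)
  have h1' : Tendsto (fun N : ℕ => (r : ℝ) * (r * (2 * (1 / ((N : ℝ) + 1))))) atTop (𝓝 0) := by
    simpa using ((h0.const_mul 2).const_mul (r : ℝ)).const_mul (r : ℝ)
  have h2 : Tendsto (fun m => ‖push φ (b m) * push φ (b m) - push φ (b m)‖) atTop (𝓝 0) := by
    refine squeeze_zero (fun _ => norm_nonneg _) (fun m => NN_le (defect he hR (hx m))) ?_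
    have := ((((tendsto_finsetSum (univ : Finset (Fin r)) fun _ _ => ((h0.const_add R).mul h0).add
      (h0.mul_const R))).add h0).const_mul (r : ℝ)).const_mul (r : ℝ)
    simpa using this
  have h3 : Tendsto (fun m => TT r H (push φ (b m))) atTop (𝓝 (∑ i, e i i 1)) := by
    simp only [TT_apply]
    refine tendsto_finsetSum _ fun i _ => tendsto_iff_norm_sub_tendsto_zero.2 ?_
    exact squeeze_zero (fun _ => norm_nonneg _)
      (fun m => (abs_sub_comm _ _).trans_le ((hx m i i).abs_le 1)) h0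
  obtain ⟨R', hR'⟩ : ∃ R', ∀ m, ‖push φ (b m)‖ ≤ R' :=
    ⟨‖push φ (b 0)‖ + r * (r * (2 * (1 / ((0 : ℕ) + 1)))), fun m =>
      (norm_le_insert' _ (push φ (b 0))).trans (by gcongr; exact h1 m 0 0 m.zero_le le_rfl)⟩
  have hR0 : 0 ≤ R' := (norm_nonneg _).trans (hR' 0)
  obtain ⟨m, hm1, hm2, hm3⟩ := (((h2.const_mul 16).eventually_le_const (by norm_num : _ < (1 : ℝ))).and
    (((h2.const_mul (8 * (2 * R' + 3))).eventually_le_const (by norm_num : _ < (1 : ℝ))).and
      (h1'.eventually_le_const (by norm_num : _ < (1 / 4 : ℝ))))).exists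
  have h4 := newton (hR' m) le_rfl hm1 hm2
  have h5 := fun j => (newton_step (hR' m) le_rfl hm1 hm2 j).trans
    (mul_le_mul_of_nonneg_left (half_le j) (by linarith))
  have h6 : Tendsto (fun j => TT r H (nw (push φ (b m)) j)) atTop (𝓝 (∑ i, e i i 1)) := by
    refine tr_lim _ TT_le TT_comm (cauchySeq_of_le_tendsto_0 _
      (fun n k N hn hk => (dist_eq_norm _ _).trans_le (h1 n k N hn hk)) h1')
      (cauchySeq_of_le_geometric (1 / 2) (2 * R' + 3) (by norm_num) fun j =>
        (dist_eq_norm' _ _).trans_le (h5 j)) h2 ?_ ?_ h3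
    · refine squeeze_zero (fun _ => norm_nonneg _) (fun j => (h4 j).2.1) ?_
      simpa using (tendsto_pow_atTop_nhds_zero_of_lt_one (r := (1 / 2 : ℝ)) (by norm_num)
        (by norm_num)).const_mul ‖push φ (b m) * push φ (b m) - push φ (b m)‖
    · refine (eventually_ge_atTop m).mono fun j hj => ?_
      have h7 := norm_sub_le_norm_sub_add_norm_sub (push φ (b j)) (push φ (b m))
        (nw (push φ (b m)) j)
      have h8 := (h4 j).2.2
      have h9 := h1 j m m hj le_rfl
      have h10 : (0 : ℝ) < (1 / 2) ^ j := by positivity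
      rw [norm_sub_rev] at h8
      linarith
  have h7 : ∀ x : Mat r G, ∀ᶠ n in atTop,
      NN r (G ⧸ K n) (push (QuotientGroup.mk' (K n)) x) ≤ ‖push φ x‖ := fun x =>
    (eventually_all.2 fun i => eventually_all.2 fun j => ev_le φ K hK hker (x i j).coeff).mono
      fun n hn => sum_le_sum (s := univ) fun i _ => sum_le_sum (s := univ) fun j _ => hn i j
  obtain ⟨n, hn1, hn2⟩ := ((h7 (b m)).and (h7 (b m * b m - b m))).exists
  refine ⟨⟨⟨r, a m⟩, q, q'⟩, n, max (2 * nK (K n) (ser (b m) q q' 0).coeff) (|(q : ℝ)| * (2 * R' + 3)),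
    ?_, ?_⟩
  · simp only [← hb]
    rintro (_ | j)
    · have := le_max_left (2 * nK (K n) (ser (b m) q q' 0).coeff) (|(q : ℝ)| * (2 * R' + 3))
      rw [pow_zero, pow_one]
      linarith
    · letI := (NN r (G ⧸ K n)).toSeminormedRing
      simp only [map_sub, map_mul] at hn2
      have h8 := newton_step (a := push (QuotientGroup.mk' (K n)) (b m)) (hn1.trans (hR' m)) hn2
        hm1 hm2 j
      rw [← map_nw, ← map_nw, ← map_sub] at h8
      refine le_trans ?_ (mul_le_mul_of_nonneg_right (le_max_right _ _) (by positivity))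
      change l1 (Finsupp.mapDomain (QuotientGroup.mk' (K n))
        ((q : ℝ) • (nw (b m) (j + 1) - nw (b m) j).trace.coeff)) ≤ _
      rw [Finsupp.mapDomain_smul, push_trace, mul_assoc]
      exact (l1_smul _ _).trans (mul_le_mul_of_nonneg_left ((l1_trace _).trans h8) (abs_nonneg _))
  · simp only [← hb, tK_eq]
    have h8 : ∀ j, (ser (b m) q q' (j + 1)).coeff.mapDomain φ 1 =
        q * (TT r H (nw (push φ (b m)) (j + 1)) - TT r H (nw (push φ (b m)) j)) := fun j => by
      rw [ser, MonoidAlgebra.coeff_smul, Finsupp.mapDomain_smul, push_trace, ← map_sub, ← map_nw,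
        ← map_nw, ← map_sub]
      rfl
    have h9 : (ser (b m) q q' 0).coeff.mapDomain φ 1 = q * TT r H (push φ (b m)) + q' := by
      rw [ser, MonoidAlgebra.coeff_add, MonoidAlgebra.coeff_smul, MonoidAlgebra.coeff_smul,
        Finsupp.mapDomain_add, Finsupp.mapDomain_smul, Finsupp.mapDomain_smul, push_trace,
        MonoidAlgebra.one_def, MonoidAlgebra.coeff_single, Finsupp.mapDomain_single, φ.map_one]
      simp [TT]
    rw [← hasSum_nat_add_iff' 1, sum_range_one, h9]
    simp only [h8]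
    have h10 : Summable fun j =>
        TT r H (nw (push φ (b m)) (j + 1)) - TT r H (nw (push φ (b m)) j) :=
      (summable_geometric_two.mul_left (2 * R' + 3)).of_norm_bounded fun j => by
        rw [← map_sub]; exact (TT_le _).trans (h5 j)
    have h11 := h10.hasSum_iff_tendsto_nat.2 (by
      simp only [sum_range_sub fun j => TT r H (nw (push φ (b m)) j)]
      exact h6.sub_const _)
    have h12 : (q : ℝ) * ∑ i, e i i 1 + q' - (q * TT r H (push φ (b m)) + q') =
        q * (∑ i, e i i 1 - TT r H (nw (push φ (b m)) 0)) := by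
      rw [nw]
      ring
    rw [h12]
    exact h11.mul_left _

end Pool.Agent.Lib.DG
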