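import Pool.Agent.Lib.DG.Blue
import Pool.Agent.Lib.IT.EXP

/-! Block MEA2: expansion and the exact value of the trace. -/

namespace Pool.Agent.Lib.DG

open Finset MeasureTheory Filter Function Pool.Agent.Lib.IT

set_option linter.unusedSectionVars false
set_option linter.unusedVariables false

namespace MEA2

variable {C W : Type} [Fintype C] [DecidableEq C] [Fintype W] [AddCommGroup W]
  {D : Data C W} {Γ : Type} [Group Γ] {gen : C × W → Γ} {I : Set ℕ}

open scoped Classical in
/-- a set with a small boundary contains most of a full copy -/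
theorem key2 (h : Cfg gen (Xg D gen I)) {n0 : ℕ} (b : Birth D gen n0) (hC : Fintype.card C = 200)
    (h2 : ∀ w : W, w + w = 0) (ω : Xg D gen I) (B : Finset Γ)
    (hB : {e : Γ × C | e.1 ∈ B ∧ sig h ω e.2 e.1 ∉ B}.ncard < B.card) :
    ∃ n, ∃ ι : Fin (D.N n) → Γ, IsCopy D gen n ι ∧ wd ι ω.1 = D.y n ∧
      7 * D.N n < 8 * (univ.filter fun a => ι a ∈ B).card := by
  have hσ : ∀ c g, sig h ω c g = g * gen (c, ω.1 g (c, true)) := fun _ _ => rfl
  set E := (B ×ˢ (univ : Finset C)).filter fun e => sig h ω e.2 e.1 ∈ B with hE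
  have hE1 : 199 * B.card < E.card := by
    have h3 := card_filter_add_card_filter_not (s := B ×ˢ (univ : Finset C))
      (fun e => sig h ω e.2 e.1 ∈ B)
    have h4 : {e : Γ × C | e.1 ∈ B ∧ sig h ω e.2 e.1 ∉ B} =
        ↑((B ×ˢ (univ : Finset C)).filter fun e => ¬ sig h ω e.2 e.1 ∈ B) := by
      ext e; simp
    rw [h4, Set.ncard_coe_finset] at hB
    rw [card_product, card_univ, hC, ← hE] at h3
    omega
  let T : Γ × C → ℕ ×ₗ ℕ := fun e => max (b.β e.1) (b.β (sig h ω e.2 e.1))
  have hT : ∀ e ∈ E, ∃ g ∈ B, b.β g = T e := by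
    intro e he
    rw [hE, mem_filter, mem_product] at he
    rcases max_choice (b.β e.1) (b.β (sig h ω e.2 e.1)) with h3 | h3
    · exact ⟨_, he.1.1, h3.symm⟩
    · exact ⟨_, he.2, h3.symm⟩
  obtain ⟨t, ht⟩ : ∃ t, 199 * (B.filter fun g => b.β g = t).card <
      (E.filter fun e => T e = t).card := by
    by_contra hc
    push Not at hc
    rw [card_eq_sum_card_fiberwise (s := E) (t := B.image b.β) (f := T)
      (fun e he => by simpa using hT e he), card_eq_sum_card_fiberwise (s := B) (t := B.image b.β)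
      (f := b.β) (fun g hg => mem_image_of_mem _ hg), mul_sum] at hE1
    exact absurd (sum_le_sum fun t _ => hc t) (not_le.2 hE1)
  cases hb : b.big t with
  | none =>
    exfalso
    obtain ⟨e, he⟩ := card_pos.1 (lt_of_le_of_lt (Nat.zero_le _) ht)
    rw [mem_filter] at he
    obtain ⟨g, hg, hg'⟩ := hT e he.1
    have h3 : 0 < (B.filter fun g => b.β g = t).card :=
      card_pos.2 ⟨g, mem_filter.2 ⟨hg, hg'.trans he.2⟩⟩
    have h4 : (E.filter fun e => T e = t).card ≤ 1 := by
      refine card_le_one.2 fun e1 h5 e2 h6 => ?_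
      rw [mem_filter] at h5 h6
      have h7 := (b.edge_small e2.1 (e2.2, ω.1 e2.1 (e2.2, true))
        (by rw [← hb]; exact congrArg b.big h6.2)).2 e1.1 (e1.2, ω.1 e1.1 (e1.2, true))
        (h5.2.trans h6.2.symm)
      exact Prod.ext h7.1 (congrArg Prod.fst h7.2)
    omega
  | some x =>
    obtain ⟨n, ι⟩ := x
    have hinj := b.inj t n ι hb
    have hcopy := b.hom t n ι hb
    have hle := b.le t n ι hb
    set U := univ.filter fun a => ι a ∈ B ∧ b.β (ι a) = t with hU
    have hU1 : U.card ≤ (B.filter fun g => b.β g = t).card :=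
      card_le_card_of_injOn ι (fun a ha => by simpa [hU] using ha) hinj.injOn
    let u : Fin (D.N n) × C → W := fun e => ω.1 (ι e.1) (e.2, true)
    set F1 := ((U ×ˢ (univ : Finset C)).filter fun e => D.π n e.2 e.1 ∈ U).filter
      fun e => u e = D.y n e with hF1
    let P : Fin (D.N n) → Fin (D.N n) × C := fun a =>
      if hp : ∃ p, b.β (ι (step (D.π n) a p)) < t then edge (D.π n) a hp.choose
      else (a, Classical.choice (Fintype.card_pos_iff.1 (by omega)))
    have hP : ∀ a ∈ U, ∀ p, b.β (ι (step (D.π n) a p)) < t → P a = edge (D.π n) a p := by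
      intro a ha p hp
      have hp' : ∃ p, b.β (ι (step (D.π n) a p)) < t := ⟨p, hp⟩
      simp only [P, dif_pos hp']
      rw [b.gate_one t n ι hb a (mem_filter.1 ha).2.2 _ _ hp'.choose_spec hp]
    have hsub : (E.filter fun e => T e = t) ⊆
        (F1 ∪ U.image P).image fun e => (ι e.1, e.2) := by
      rintro ⟨g, c⟩ he
      rw [mem_filter, hE, mem_filter, mem_product] at he
      obtain ⟨⟨⟨hg, -⟩, hg'⟩, het⟩ := he
      obtain ⟨a, rfl, ha⟩ := b.edge_big g (c, ω.1 g (c, true)) n ι
        (by rw [← hb]; exact congrArg b.big het)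
      have h3 : sig h ω c (ι a) = ι (D.π n c a) := by rw [hσ, hcopy a c]; exact congrArg _ (by rw [ha])
      refine mem_image.2 ⟨(a, c), ?_, rfl⟩
      simp only [T] at het
      simp only at hg hg'
      rw [h3] at het hg'
      by_cases h4 : b.β (ι a) = t
      · have haU : a ∈ U := mem_filter.2 ⟨mem_univ _, hg, h4⟩
        by_cases h5 : b.β (ι (D.π n c a)) = t
        · refine mem_union_left _ (mem_filter.2 ⟨mem_filter.2 ⟨mem_product.2 ⟨haU, mem_univ _⟩,
            mem_filter.2 ⟨mem_univ _, hg', h5⟩⟩, ha.symm⟩)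
        · exact mem_union_right _ (mem_image.2 ⟨a, haU,
            hP a haU (c, true) (lt_of_le_of_ne (hle _) h5)⟩)
      · have h5 : b.β (ι (D.π n c a)) = t := by
          rcases max_choice (b.β (ι a)) (b.β (ι (D.π n c a))) with h6 | h6
          · exact absurd (h6.symm.trans het) h4
          · exact h6.symm.trans het
        have haU : D.π n c a ∈ U := mem_filter.2 ⟨mem_univ _, hg', h5⟩
        refine mem_union_right _ (mem_image.2 ⟨_, haU, ?_⟩)
        rw [hP _ haU (c, false) (by simpa [step] using lt_of_le_of_ne (hle a) h4)]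
        simp [edge]
    have h3 : 198 * U.card < F1.card := by
      have h4 := (card_le_card hsub).trans (card_image_le.trans (card_union_le _ _))
      have h5 : (U.image P).card ≤ U.card := card_image_le
      omega
    have h4 : 7 * D.N n < 8 * U.card := by
      by_contra hc
      have h5 := D.dens n U (not_lt.1 hc)
      have h6 : F1.card ≤ inE (D.π n) U := card_filter_le _ _
      rw [hC] at h5
      omega
    have h5 : wt (u - D.y n) + F1.card ≤ Fintype.card (Fin (D.N n) × C) := by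
      have h6 : {e | (u - D.y n) e ≠ 0} = ↑(univ.filter fun e => ¬ u e = D.y n e) := by
        ext e; simp [sub_eq_zero]
      rw [wt, h6, Set.ncard_coe_finset, ← card_univ,
        ← card_filter_add_card_filter_not (s := univ) (fun e => u e = D.y n e), add_comm]
      exact Nat.add_le_add_right (card_le_card fun e he =>
        mem_filter.2 ⟨mem_univ _, (mem_filter.1 he).2⟩) _
    obtain ⟨hn, hu⟩ := EXP.eq_of_close h2 (ω.2.2 n ι hcopy) (u := u) (by
      rw [Fintype.card_prod, Fintype.card_fin, hC] at h5 ⊢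
      omega)
    exact ⟨n, ι, hcopy, hu, h4.trans_le (Nat.mul_le_mul_left _
      (card_le_card fun a ha => mem_filter.2 ⟨mem_univ _, (mem_filter.1 ha).2.1⟩))⟩

theorem copy_walk {n : ℕ} {ι ι' : Fin (D.N n) → Γ} (h : IsCopy D gen n ι)
    (h' : IsCopy D gen n ι') (w : List (C × Bool)) (a : Fin (D.N n)) (ha : ι a = ι' a) :
    ι (walk (D.π n) a w) = ι' (walk (D.π n) a w) := by
  induction w generalizing a with
  | nil => exact ha
  | cons l w ih =>
    rw [EXP.walk_cons]
    refine ih _ ?_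
    obtain ⟨c, b⟩ := l
    cases b
    · have h1 := h ((D.π n c).symm a) c
      have h2 := h' ((D.π n c).symm a) c
      rw [Equiv.apply_symm_apply] at h1 h2
      simp only [step, Bool.false_eq_true, if_false]
      exact mul_right_cancel (h1.symm.trans (ha.trans h2))
    · simp only [step, if_true]
      rw [h a c, h' a c, ha]

theorem copy_uniq (hCON : St_CON) (hC : 3 ≤ Fintype.card C) {n : ℕ} {ι ι' : Fin (D.N n) → Γ}
    (h : IsCopy D gen n ι) (h' : IsCopy D gen n ι') (a : Fin (D.N n)) (ha : ι a = ι' a) :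
    ι = ι' := by
  funext x
  have hx : x ∈ orb (D.π n) a := by
    rw [hCON C _ _ hC (D.dens n)]
    trivial
  obtain ⟨w, rfl⟩ := hx
  exact copy_walk h h' w a ha

theorem lab_eq {n m : ℕ} {ι : Fin (D.N n) → Γ} {ι' : Fin (D.N m) → Γ} (h : IsCopy D gen n ι)
    (h' : IsCopy D gen m ι') {ω : Γ → C × Bool → W} (e : wd ι ω = D.y n) (e' : wd ι' ω = D.y m)
    (c : C) (k : ℕ) (a : Fin (D.N n)) (a' : Fin (D.N m)) (ha : ι a = ι' a') :
    lab (D.π n) (D.y n) a (List.replicate k (c, true)) =
      lab (D.π m) (D.y m) a' (List.replicate k (c, true)) := by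
  induction k generalizing a a' with
  | zero => rfl
  | succ k ih =>
    have h1 : D.y n (a, c) = D.y m (a', c) := by
      rw [← e, ← e']
      simp only [wd, ha]
    simp only [List.replicate_succ, lab, edge, step, if_true]
    rw [h1, ih _ _ (by rw [h a c, h' a' c, ha, h1])]

theorem full_eq (hC : 3 ≤ Fintype.card C) {n m : ℕ} {ι : Fin (D.N n) → Γ} {ι' : Fin (D.N m) → Γ}
    (h : IsCopy D gen n ι) (h' : IsCopy D gen m ι') {ω : Γ → C × Bool → W} (e : wd ι ω = D.y n)
    (e' : wd ι' ω = D.y m) (a : Fin (D.N n)) (a' : Fin (D.N m)) (ha : ι a = ι' a') :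
    (⟨n, a⟩ : Σ n, Fin (D.N n)) = ⟨m, a'⟩ := by
  by_contra hne
  obtain ⟨c⟩ : Nonempty C := Fintype.card_pos_iff.1 (by omega)
  have h1 := D.piece n m a a' (List.replicate (D.ℓ n + 1) (c, true))
    (List.isChain_replicate_of_rel _ fun _ => rfl) (lab_eq h h' e e' c _ a a' ha) hne
  rw [List.length_replicate] at h1
  omega

theorem full_orb (hCON : St_CON) (hC : 3 ≤ Fintype.card C) {X : AddSubgroup (Γ → C × Bool → W)}
    (h : Cfg gen X) (ω : X) {n : ℕ} {ι : Fin (D.N n) → Γ} (hι : IsCopy D gen n ι)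
    (e : wd ι ω.1 = D.y n) (a : Fin (D.N n)) : orb (sig h ω) (ι a) = ι '' Set.univ := by
  rw [EXP.orb_map (D.π n) _ ι (fun c x => by rw [hι x c, ← e]; rfl), hCON C _ _ hC (D.dens n)]

variable {A : ∀ n, AddSubgroup (Fin (D.N n) × C → W)}

open scoped Classical in
theorem onto_first (hE : St_EXT2) (hO : ∀ n, Onto (A n) (gsz D n)) {n : ℕ} (B : Birth D gen n) :
    ∃ ι : Fin (D.N n) → Γ, IsCopy D gen n ι ∧ Injective ι ∧
      ∀ u ∈ A n, ∃ ω ∈ XA D gen A, wd ι ω = u := by
  obtain ⟨t, ι, ht, h0, h1, -⟩ := B.first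
  have hinj := B.inj t n ι ht
  refine ⟨ι, B.hom t n ι ht, hinj, fun u hu => ?_⟩
  let ω0 : Γ → C × Bool → W := fun g p =>
    if hg : ∃ a, ι a = g then u (edge (D.π n) hg.choose p) else 0
  have hω0 : ∀ a p, ω0 (ι a) p = u (edge (D.π n) a p) := by
    intro a p
    have hg : ∃ a', ι a' = ι a := ⟨a, rfl⟩
    simp only [ω0, dif_pos hg]
    rw [hinj hg.choose_spec]
  have hw : wd ι ω0 = u := funext fun e => hω0 e.1 (e.2, true)
  obtain ⟨ω, hω, he⟩ := hE C W D Γ gen n B A hO t ω0 ⟨fun g c w hg => by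
      have h2 : max (B.β g) (B.β (g * gen (c, w))) = t :=
        le_antisymm hg ((h1 g).trans (le_max_left _ _))
      obtain ⟨a, rfl, ha⟩ := B.edge_big g (c, w) n ι (by rw [h2]; exact ht)
      simp only at ha
      rw [← ha, ← B.hom t n ι ht a c, hω0, hω0]
      simp [edge], fun t' ht' n' ι' hb => by
      have h2 : t' = t := le_antisymm ht' ((h1 _).trans (B.le t' n' ι' hb ⟨0, D.pos n'⟩))
      rw [h2, ht] at hb
      cases hb
      rw [hw]
      exact hu⟩
  refine ⟨ω, hω, ?_⟩
  rw [← hw]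
  funext e
  simp only [wd]
  rw [he _ (h0 _).le]

theorem meas_fib {X : AddSubgroup (Γ → C × Bool → W)} {m : MeasurableSpace X} {μ : Measure X}
    (hμ : Haar X m μ) {n : ℕ} (ι : Fin n → Γ) (u : Fin n × C → W) :
    MeasurableSet {ω : X | wd ι ω.1 = u} := by
  have : {ω : X | wd ι ω.1 = u} = ⋂ e : Fin n × C, {ω : X | ω.1 (ι e.1) (e.2, true) = u e} := by
    ext ω
    simp only [Set.mem_ofPred_eq, Set.mem_iInter]
    exact funext_iff
  rw [this]
  exact MeasurableSet.iInter fun e => hμ.meas _ _ _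

theorem mass_fib {X : AddSubgroup (Γ → C × Bool → W)} {m : MeasurableSpace X} {μ : Measure X}
    (hμ : Haar X m μ) {n : ℕ} (ι : Fin n → Γ) (K : AddSubgroup (Fin n × C → W))
    (h1 : ∀ ω : X, wd ι ω.1 ∈ K) (h2 : ∀ u ∈ K, ∃ ω ∈ X, wd ι ω = u) {u : Fin n × C → W}
    (hu : u ∈ K) : μ.real {ω : X | wd ι ω.1 = u} = 1 / (Nat.card K : ℝ) := by
  classical
  have := hμ.prob
  have h3 : ∀ v ∈ K, μ.real {ω : X | wd ι ω.1 = v} = μ.real {ω : X | wd ι ω.1 = 0} := by
    intro v hv
    obtain ⟨ω0, hX, h0⟩ := h2 v hv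
    rw [← (hμ.inv ⟨ω0, hX⟩).measureReal_preimage (meas_fib hμ ι v).nullMeasurableSet]
    congr 1
    ext ω
    have : wd ι ((⟨ω0, hX⟩ : X) + ω).1 = wd ι ω0 + wd ι ω.1 := rfl
    simp only [Set.mem_preimage, Set.mem_ofPred_eq, this, h0, add_eq_left]
  let s : Finset (Fin n × C → W) := univ.filter fun v => v ∈ K
  have h4 : (⋃ v ∈ s, {ω : X | wd ι ω.1 = v}) = Set.univ := by
    refine Set.eq_univ_of_forall fun ω => ?_
    simp only [Set.mem_iUnion]
    exact ⟨_, mem_filter.2 ⟨mem_univ _, h1 ω⟩, rfl⟩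
  have h5 := measureReal_biUnion_finset (μ := μ) (s := s) (f := fun v => {ω : X | wd ι ω.1 = v})
    (fun v _ v' _ hne => Set.disjoint_left.2 fun ω hv hv' => hne (hv.symm.trans hv'))
    (fun v _ => meas_fib hμ ι v)
  rw [h4, probReal_univ, sum_congr rfl fun v hv => h3 v (mem_filter.1 hv).2, sum_const,
    nsmul_eq_mul] at h5
  have h6 : Nat.card K = s.card := by
    rw [Nat.card_eq_fintype_card, Fintype.card_subtype]
  have h7 : (s.card : ℝ) ≠ 0 := by
    intro h
    rw [h, zero_mul] at h5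
    exact one_ne_zero h5
  rw [h3 u hu, h6, eq_div_iff h7, mul_comm, ← h5]

end MEA2

open MEA2 in
theorem stMEA2 (hCON : IT.St_CON) (hE : St_EXT2) : St_MEA2 := by
  classical
  intro C W _ _ _ _ D Γ _ gen A h hB hC h2 hA hy hO hS
  have hC3 : 3 ≤ Fintype.card C := by omega
  have hle : XA D gen A ≤ Xg D gen Set.univ := XA_mono D gen hA
  have h0 : Cfg gen (Xg D gen Set.univ) := cfg_XA D gen (adm D Set.univ)
  have hsig : ∀ ω : XA D gen A, sig h ω = sig h0 ⟨ω.1, hle ω.2⟩ := fun ω =>
    funext fun c => Equiv.ext fun _ => rfl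
  obtain ⟨B0⟩ := hB 0
  refine ⟨fun ω => ?_, fun m μ hμ => ?_⟩
  · rw [hsig]
    exact (stEXP hCON C W D Γ gen _ h0 0 B0 hC h2 _).1
  have := hμ.prob
  choose ι0 hcp hinj hon using fun n => onto_first hE hO (hB n).some
  let cp : ∀ n, Fin (D.N n) → Fin (D.N n) → Γ := fun n a x => (ι0 n a)⁻¹ * ι0 n x
  have hcp' : ∀ n a, IsCopy D gen n (cp n a) := fun n a x c => by
    simp only [cp, hcp n x c, mul_assoc]
  have hone : ∀ n a, cp n a a = 1 := fun n a => inv_mul_cancel _
  let F : ∀ n, Fin (D.N n) → Set (XA D gen A) := fun n a => {ω | wd (cp n a) ω.1 = D.y n}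
  have hFm : ∀ n a, MeasurableSet (F n a) := fun n a => meas_fib hμ _ _
  have hFr : ∀ n a, μ.real (F n a) = 1 / (Nat.card (A n) : ℝ) := fun n a => by
    refine mass_fib hμ _ (A n) (fun ω => ω.2.2 n _ (hcp' n a)) (fun u hu => ?_) (hy n)
    obtain ⟨ω, hω, e⟩ := hon n u hu
    refine ⟨_, h.shift ω hω (ι0 n a), ?_⟩
    rw [← e]
    funext x
    simp only [wd, cp, mul_inv_cancel_left]
  let f : ℕ → XA D gen A → ℝ := fun n ω =>
    ∑ a, (F n a).indicator (fun _ => 1 / (D.N n : ℝ)) ω
  have hfm : ∀ n, Measurable (f n) := fun n =>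
    Finset.measurable_sum _ fun a _ => measurable_const.indicator (hFm n a)
  have hf0 : ∀ n ω, 0 ≤ f n ω := fun n ω =>
    sum_nonneg fun a _ => Set.indicator_nonneg (fun _ _ => by positivity) _
  have hfi : ∀ n, Integrable (f n) μ := fun n =>
    integrable_finsetSum _ fun a _ => (integrable_const _).indicator (hFm n a)
  have hfI : ∀ n, ∫ ω, f n ω ∂μ = 1 / (Nat.card (A n) : ℝ) := fun n => by
    have hN : (D.N n : ℝ) ≠ 0 := Nat.cast_ne_zero.2 (D.pos n).ne'
    simp only [f]
    rw [integral_finsetSum _ fun a _ => (integrable_const _).indicator (hFm n a)]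
    simp only [integral_indicator_const _ (hFm n _), hFr, sum_const, card_univ, Fintype.card_fin,
      nsmul_eq_mul, smul_eq_mul]
    field_simp
  have hsum : ∀ ω, HasSum (fun n => f n ω) (1 / ((orb (sig h ω) 1).ncard : ℝ)) := by
    intro ω
    by_cases hx : ∃ n a, ω ∈ F n a
    · obtain ⟨n, a, ha⟩ := hx
      have h3 : (orb (sig h ω) 1).ncard = D.N n := by
        rw [← hone n a, full_orb hCON hC3 h ω (hcp' n a) ha, Set.ncard_image_of_injective _
          (fun x x' e => hinj n (mul_left_cancel e)), Set.ncard_univ, Nat.card_fin]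
      have h4 : ∀ n' a', ω ∈ F n' a' → (⟨n', a'⟩ : Σ n, Fin (D.N n)) = ⟨n, a⟩ := fun n' a' ha' =>
        full_eq hC3 (hcp' n' a') (hcp' n a) ha' ha a' a ((hone _ _).trans (hone _ _).symm)
      have h5 : f n ω = 1 / (D.N n : ℝ) := by
        simp only [f]
        rw [sum_eq_single a (fun a' _ hne => Set.indicator_of_notMem (fun h' => hne ?_) _)
          (fun h' => absurd (mem_univ _) h'), Set.indicator_of_mem ha]
        simpa using h4 n a' h'
      rw [h3, ← h5]
      refine hasSum_single n fun n' hne => sum_eq_zero fun a' _ =>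
        Set.indicator_of_notMem (fun h' => hne ?_) _
      exact congrArg Sigma.fst (h4 n' a' h')
    · have h3 : (orb (sig h ω) 1).Infinite := by
        intro hg
        have h3 : {e : Γ × C | e.1 ∈ hg.toFinset ∧
            sig h0 ⟨ω.1, hle ω.2⟩ e.2 e.1 ∉ hg.toFinset} = ∅ := by
          ext e
          simp only [Set.Finite.mem_toFinset, Set.mem_ofPred_eq, Set.mem_empty_iff_false,
            iff_false, not_and, not_not]
          exact fun he => EXP.orb_trans _ he ⟨[(e.2, true)], rfl⟩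
        obtain ⟨n, ι, hι, e, hcard⟩ := key2 h0 B0 hC h2 ⟨ω.1, hle ω.2⟩ hg.toFinset (by
          rw [h3, Set.ncard_empty]
          exact card_pos.2 ⟨1, hg.mem_toFinset.2 ⟨[], rfl⟩⟩)
        obtain ⟨a, ha⟩ := card_pos.1
          (show 0 < (univ.filter fun a => ι a ∈ hg.toFinset).card by omega)
        have h4 := EXP.orb_symm _ (hg.mem_toFinset.1 (mem_filter.1 ha).2)
        rw [full_orb hCON hC3 h ω hι e] at h4
        obtain ⟨a', -, ha'⟩ := h4
        refine hx ⟨n, a', ?_⟩
        have h5 : cp n a' = ι := copy_uniq hCON hC3 (hcp' n a') hι a' ((hone _ _).trans ha'.symm)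
        change wd (cp n a') ω.1 = D.y n
        rw [h5]
        exact e
      have h4 : (fun n => f n ω) = fun _ => 0 := funext fun n => sum_eq_zero fun a _ =>
        Set.indicator_of_notMem (fun h' => hx ⟨n, a, h'⟩) _
      rw [h3.ncard, h4, Nat.cast_zero, div_zero]
      exact hasSum_zero
  constructor
  · have hm : Measurable fun ω => 1 / ((orb (sig h ω) 1).ncard : ℝ) :=
      measurable_of_tendsto_metrizable (f := fun k ω => ∑ n ∈ range k, f n ω)
        (fun k => Finset.measurable_sum _ fun n _ => hfm n)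
        (tendsto_pi_nhds.2 fun ω => (hsum ω).tendsto_sum_nat)
    refine Integrable.of_bound hm.aestronglyMeasurable 1 (Eventually.of_forall fun ω => ?_)
    rw [Real.norm_of_nonneg (by positivity), one_div]
    exact Nat.cast_inv_le_one _
  · have h3 := hasSum_integral_of_summable_integral_norm hfi (by
      simp only [Real.norm_of_nonneg (hf0 _ _), hfI]
      exact hS)
    simp only [hfI, (hsum _).tsum_eq] at h3
    exact h3.tsum_eq.symm

end Pool.Agent.Lib.DG
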