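import Pool.Agent.Lib.DG.Blue
import Pool.Agent.Lib.IT.SEQ

/-! The sequence of graphs with explicit sizes, and numerical estimates. -/

namespace Pool.Agent.Lib.DG

open Finset Pool.Agent.Lib.IT

open SEQ in
theorem seq2 (hGR : St_GR) (hRLC : St_RLC) (hLAB : St_LAB) (C W : Type) [Fintype C] [DecidableEq C]
    [Fintype W] [AddCommGroup W] (hC : Fintype.card C = 200) (h2 : ∀ w : W, w + w = 0)
    (hW : 2 * 800 ^ 200 < Fintype.card W) (Gr : ℕ → ℕ → ℕ) :
    ∃ D : Data C W, (∀ n, Gr (D.N n) n ≤ D.N (n + 1)) ∧ (∀ n, D.N n = 800 ^ (30 * D.ℓ n)) ∧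
      StrictMono D.ℓ := by
  classical
  have hF : 2 * 800 ^ 200 ≤ Fintype.card {w : W // w ≠ 0} := by
    have := Fintype.card_subtype_compl (fun w : W => w = 0)
    rw [Fintype.card_subtype_eq] at this
    have e : Fintype.card {w : W // w ≠ 0} = Fintype.card W - 1 := by convert this
    omega
  have h256 : 256 ≤ Fintype.card W := by
    have : 800 ^ 1 ≤ 800 ^ 200 := Nat.pow_le_pow_right (by norm_num) (by norm_num)
    omega
  obtain ⟨f, hf1, hf2⟩ := seq_exists Ok (Aft Gr) (stage hGR hLAB hC hF Gr)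
  have hpos : ∀ n, 0 < 800 ^ (30 * (f n).l) := fun n => by positivity
  have hcode : ∀ n, ∃ K : AddSubgroup (Fin (800 ^ (30 * (f n).l)) × C → W),
      GoodCode K fun e => ((f n).z e).1 := fun n => by
    refine hRLC _ W h2 h256 ?_ _ fun e => ((f n).z e).2
    rw [Fintype.card_prod, Fintype.card_fin, hC]
    have := hpos n
    omega
  choose K hK using hcode
  have hmono : StrictMono fun n => (f n).l := fun m n h => (hf2 m n h).1
  refine ⟨⟨fun n => 800 ^ (30 * (f n).l), fun n => (f n).π, fun n e => ((f n).z e).1,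
    fun n => (f n).l, K, hpos, fun n => le_trans (by norm_num) (hf1 n).1, fun n => (hf1 n).2.1, ?_,
    fun n => (hf1 n).2.2.1, hK, fun n => ?_⟩, fun n => ?_, fun _ => rfl, hmono⟩
  · intro n m a a' w hw hlab hne
    by_contra hlen
    have hlab' := (List.map_injective_iff.2 Subtype.val_injective)
      (((lab_map (f n).π (f n).z Subtype.val w a).symm.trans hlab).trans
        (lab_map (f m).π (f m).z Subtype.val w a'))
    have hpre : ∀ k, k ≤ (f n).l → FreeGroup.IsReduced (w.take (k + 1)) ∧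
        (w.take (k + 1)).length = k + 1 ∧
        lab (f n).π (f n).z a (w.take (k + 1)) = lab (f m).π (f m).z a' (w.take (k + 1)) := by
      intro k hk
      refine ⟨List.IsChain.take hw _, ?_, by rw [lab_take, lab_take, hlab']⟩
      rw [List.length_take]
      omega
    rcases lt_trichotomy m n with h | h | h
    · obtain ⟨b1, b2, b3⟩ := hpre (f m).l (hmono h).le
      exact (hf2 m n h).2.2 a a' _ b1 b2 b3
    · subst h
      obtain ⟨b1, b2, b3⟩ := hpre (f m).l le_rfl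
      exact hne (by rw [(hf1 m).2.2.2 a a' _ b1 b2 b3])
    · obtain ⟨b1, b2, b3⟩ := hpre (f n).l le_rfl
      exact (hf2 n m h).2.2 a' a _ b1 b2 b3.symm
  · rw [hC]
    exact gate_le _ (le_trans (by norm_num) (hf1 n).1)
  · exact (hf2 n (n + 1) (Nat.lt_succ_self n)).2.1 n hmono.le_apply

namespace NUM

theorem gate_le (l : ℕ) : 2 * ((2 * 200 + 1) ^ (5 * l) * 200) ≤ 400 * 2 ^ (45 * l) := by
  have h : (2 * 200 + 1) ^ (5 * l) ≤ 2 ^ (45 * l) := by
    rw [show 45 * l = 9 * (5 * l) by ring, pow_mul 2 9]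
    exact Nat.pow_le_pow_left (by norm_num) _
  omega

theorem gate_le' {l : ℕ} (hl : 1 ≤ l) : 400 * 2 ^ (45 * l) ≤ 800 ^ (30 * l) :=
  calc 400 * 2 ^ (45 * l) ≤ 2 ^ (9 * l) * 2 ^ (45 * l) :=
        Nat.mul_le_mul_right _ (le_trans (by norm_num)
          (Nat.pow_le_pow_right (by norm_num) (show 9 ≤ 9 * l by omega)))
    _ = 2 ^ (54 * l) := by rw [← pow_add]; congr 1; ring
    _ ≤ 2 ^ (2 * (30 * l)) := Nat.pow_le_pow_right (by norm_num) (by omega)
    _ ≤ 800 ^ (30 * l) := by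
        rw [pow_mul 2 2]
        exact Nat.pow_le_pow_left (by norm_num) _

theorem opt_le {q N g : ℕ} (hq : 2 ^ 202 ≤ q) (hN : 1 ≤ N) (hg : g ≤ N) :
    4 * (2 ^ (N * 200) * q ^ g) ≤ q ^ (12 * N) := by
  have hq1 : 1 ≤ q := le_trans Nat.one_le_two_pow hq
  calc 4 * (2 ^ (N * 200) * q ^ g) = 2 ^ (N * 200 + 2) * q ^ g := by ring
    _ ≤ q ^ N * q ^ N := by
        refine Nat.mul_le_mul ?_ (Nat.pow_le_pow_right hq1 hg)
        refine (Nat.pow_le_pow_right (by norm_num) (show N * 200 + 2 ≤ 202 * N by omega)).trans ?_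
        rw [pow_mul]
        exact Nat.pow_le_pow_left hq _
    _ ≤ q ^ (12 * N) := by
        rw [← pow_add]
        exact Nat.pow_le_pow_right hq1 (by omega)

theorem supp_le {q l n c g : ℕ} (hq : 2 ≤ q) (hl : 1 ≤ l) (hn : n ≤ l) (hc : c ≤ l)
    (hg : g ≤ 800 ^ (30 * l)) :
    4 * (2 * (n + 1) * (60 * l * c ^ 3 ^ (60 * l) * q ^ g)) ≤ q ^ (12 * 800 ^ (30 * l)) := by
  have h1 : ∀ x : ℕ, x ≤ 2 ^ x := fun x => Nat.lt_two_pow_self.le
  obtain ⟨Y, hY⟩ : ∃ Y, Y = 3 ^ (60 * l) := ⟨_, rfl⟩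
  have hY1 : 1 ≤ Y := hY ▸ Nat.one_le_pow _ _ (by norm_num)
  have h2 : 960 * l ^ 2 + l * Y ≤ 800 ^ (30 * l) := by
    have a1 : l ≤ 2 ^ (10 * l) := (h1 l).trans (Nat.pow_le_pow_right (by norm_num) (by omega))
    have a2 : 961 ≤ 2 ^ (10 * l) :=
      le_trans (by norm_num) (Nat.pow_le_pow_right (by norm_num) (show 10 ≤ 10 * l by omega))
    calc 960 * l ^ 2 + l * Y ≤ 961 * l * l * Y := by nlinarith [Nat.mul_le_mul hl hY1]
      _ ≤ 2 ^ (10 * l) * 2 ^ (10 * l) * 2 ^ (10 * l) * Y := by gcongr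
      _ = 18 ^ (30 * l) := by
          rw [hY, show 60 * l = 2 * (30 * l) by ring, pow_mul 3 2, ← pow_add, ← pow_add,
            show 10 * l + 10 * l + 10 * l = 30 * l by ring, ← mul_pow]
          norm_num
      _ ≤ 800 ^ (30 * l) := Nat.pow_le_pow_left (by norm_num) _
  rw [← hY]
  generalize 800 ^ (30 * l) = N at h2 hg ⊢
  calc 4 * (2 * (n + 1) * (60 * l * c ^ Y * q ^ g)) = (480 * (n + 1) * l) * c ^ Y * q ^ g := by ring
    _ ≤ 2 ^ (960 * l ^ 2) * (2 ^ l) ^ Y * q ^ N := by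
        gcongr
        · exact le_trans (by nlinarith) (h1 _)
        · exact hc.trans (h1 l)
        · omega
    _ ≤ q ^ N * q ^ N := by
        rw [← pow_mul, ← pow_add]
        exact Nat.mul_le_mul_right _ ((Nat.pow_le_pow_right (by norm_num) h2).trans
          (Nat.pow_le_pow_left hq _))
    _ ≤ q ^ (12 * N) := by
        rw [← pow_add]
        exact Nat.pow_le_pow_right (by omega) (by omega)

theorem tail_le {q l n g : ℕ} (hl : 1 ≤ l) (hn : n ≤ l) (hq : q ≤ l)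
    (hg : g ≤ 400 * 2 ^ (45 * l)) : n * q ^ g ≤ 2 ^ 2 ^ (60 * l) := by
  have h1 : ∀ x : ℕ, x ≤ 2 ^ x := fun x => Nat.lt_two_pow_self.le
  have h2 : n + q * g ≤ 2 ^ (60 * l) := by
    have a1 : 1 ≤ 2 ^ (45 * l) := Nat.one_le_two_pow
    calc n + q * g ≤ l * 2 ^ (45 * l) + l * (400 * 2 ^ (45 * l)) :=
          Nat.add_le_add (by nlinarith) (Nat.mul_le_mul hq hg)
      _ = 401 * l * 2 ^ (45 * l) := by ring
      _ ≤ 2 ^ (9 * l) * 2 ^ l * 2 ^ (45 * l) := by
          gcongr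
          · exact le_trans (by norm_num)
              (Nat.pow_le_pow_right (by norm_num) (show 9 ≤ 9 * l by omega))
          · exact h1 l
      _ ≤ 2 ^ (60 * l) := by
          rw [← pow_add, ← pow_add]
          exact Nat.pow_le_pow_right (by norm_num) (by omega)
  calc n * q ^ g ≤ 2 ^ n * (2 ^ q) ^ g := Nat.mul_le_mul (h1 n) (Nat.pow_le_pow_left (h1 q) _)
    _ ≤ 2 ^ 2 ^ (60 * l) := by
        rw [← pow_mul, ← pow_add]
        exact Nat.pow_le_pow_right (by norm_num) h2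

theorem next_le {q l n M : ℕ} (h : (n + q * M + 1) ^ 5 ≤ 800 ^ (30 * l)) :
    n * q ^ M ≤ 2 ^ 2 ^ (60 * l) := by
  have h1 : ∀ x : ℕ, x ≤ 2 ^ x := fun x => Nat.lt_two_pow_self.le
  have h2 : n + q * M + 1 ≤ 2 ^ (60 * l) := by
    rw [show 30 * l = 6 * l * 5 by ring, pow_mul, Nat.pow_le_pow_iff_left (by norm_num)] at h
    refine h.trans ?_
    rw [show 60 * l = 10 * (6 * l) by ring, pow_mul 2 10]
    exact Nat.pow_le_pow_left (by norm_num) _
  calc n * q ^ M ≤ 2 ^ n * (2 ^ q) ^ M := Nat.mul_le_mul (h1 n) (Nat.pow_le_pow_left (h1 q) _)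
    _ ≤ 2 ^ 2 ^ (60 * l) := by
        rw [← pow_mul, ← pow_add]
        exact Nat.pow_le_pow_right (by norm_num) (by omega)

theorem step_le {q n M N : ℕ} (hq : 32 ≤ q) (h : (n + q * M + 1) ^ 5 ≤ N) :
    32 * q ^ M ≤ q ^ (12 * N) := by
  have h1 : n + q * M + 1 ≤ N := (Nat.le_self_pow (by norm_num) _).trans h
  have h2 : M ≤ q * M := Nat.le_mul_of_pos_left _ (by omega)
  calc 32 * q ^ M ≤ q ^ (M + 1) := by rw [pow_succ']; exact Nat.mul_le_mul_right _ hq
    _ ≤ q ^ (12 * N) := Nat.pow_le_pow_right (by omega) (by omega)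

theorem cast_le {C : ℝ} {n a k : ℕ} (hC : C ≤ n) (h : n * a ≤ 2 ^ k) :
    C * a * (1 / 2) ^ k ≤ 1 := by
  have h1 : (n : ℝ) * a ≤ 2 ^ k := by exact_mod_cast h
  rw [one_div, inv_pow, ← div_eq_mul_inv, div_le_one (by positivity)]
  exact (mul_le_mul_of_nonneg_right hC (Nat.cast_nonneg _)).trans h1

end NUM

end Pool.Agent.Lib.DG
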