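import Pool.Agent.Lib.DG.Blue
import Pool.Agent.Lib.IT.ALG

/-! Hyperplanes of a code. -/

set_option linter.unusedSectionVars false

namespace Pool.Agent.Lib.DG

open Finset Function Pool.Agent.Lib.IT

variable {E W : Type} [Fintype E] [Fintype W] [AddCommGroup W] {T : AddSubgroup (E → W)}

/-- the hyperplane of a functional -/
def kerA (φ : T →+ ZMod 2) : AddSubgroup (E → W) := φ.ker.map T.subtype

theorem mem_kerA {φ : T →+ ZMod 2} (u : T) : u.1 ∈ kerA φ ↔ φ u = 0 :=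
  AddSubgroup.mem_map_iff_mem (f := T.subtype) Subtype.val_injective

theorem kerA_le (φ : T →+ ZMod 2) : kerA φ ≤ T := AddSubgroup.map_subtype_le _

theorem kerA_zero : kerA (0 : T →+ ZMod 2) = T :=
  le_antisymm (kerA_le _) fun u hu => (mem_kerA ⟨u, hu⟩).2 rfl

theorem z2_add {a b : ZMod 2} (ha : a ≠ 0) (hb : b ≠ 0) : a + b = 0 := by
  revert a b; decide

theorem z2_eq {a b : ZMod 2} (h : a = 0 ↔ b = 0) : a = b := by
  revert a b; decide

theorem kerA_add (φ : T →+ ZMod 2) :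
    ∀ u ∈ T, ∀ u' ∈ T, u ∉ kerA φ → u' ∉ kerA φ → u + u' ∈ kerA φ := fun u hu u' hu' h h' =>
  (mem_kerA (⟨u, hu⟩ + ⟨u', hu'⟩)).2 (by
    rw [map_add]
    exact z2_add (fun e => h ((mem_kerA ⟨u, hu⟩).2 e)) fun e => h' ((mem_kerA ⟨u', hu'⟩).2 e))

open scoped Classical in
/-- the admissible functionals -/
noncomputable def Opt (y : T) (g : ℕ) : Finset (T →+ ZMod 2) :=
  (Set.Finite.toFinset (@Set.finite_univ _ (Finite.of_injective _ DFunLike.coe_injective))).filter
    fun φ => φ y = 0 ∧ ∀ B : Finset E, B.card ≤ g → ∃ u : T, (∀ e ∈ B, u.1 e = 0) ∧ φ u ≠ 0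

theorem mem_Opt {y : T} {g : ℕ} {φ : T →+ ZMod 2} : φ ∈ Opt y g ↔
    φ y = 0 ∧ ∀ B : Finset E, B.card ≤ g → ∃ u : T, (∀ e ∈ B, u.1 e = 0) ∧ φ u ≠ 0 := by
  simp [Opt]

theorem onto_kerA {y : T} {g : ℕ} {φ : T →+ ZMod 2} (h : φ ∈ Opt y g) (hT : Onto T g) :
    Onto (kerA φ) g := fun B hB z => by
  obtain ⟨u, hu, h1⟩ := hT B hB z
  obtain ⟨u0, h2, h3⟩ := (mem_Opt.1 h).2 B hB
  by_cases h4 : u ∈ kerA φ
  · exact ⟨u, h4, h1⟩
  · refine ⟨u + u0.1, kerA_add φ u hu _ u0.2 h4 fun e => h3 ((mem_kerA u0).1 e), fun e he => ?_⟩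
    rw [Pi.add_apply, h1 e he, h2 e he, add_zero]

theorem card_ker {A : Type} [AddCommGroup A] (φ : A →+ ZMod 2) :
    Nat.card A ≤ 2 * Nat.card φ.ker ∧ (φ ≠ 0 → Nat.card A = 2 * Nat.card φ.ker) := by
  have h1 := φ.ker.card_mul_index
  rw [AddSubgroup.index_ker] at h1
  have h2 : Nat.card φ.range ≤ 2 :=
    (Nat.card_le_card_of_injective _ Subtype.val_injective).trans (by simp)
  refine ⟨by nlinarith, fun h => ?_⟩
  have h3 : φ.range = ⊤ := by
    obtain ⟨a, ha⟩ := DFunLike.ne_iff.1 h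
    refine top_unique fun b _ => ?_
    by_cases hb : b = 0
    · exact hb ▸ zero_mem _
    · exact ⟨a, z2_eq ⟨fun e => absurd e ha, fun e => absurd e hb⟩⟩
  rw [h3, AddSubgroup.card_top, Nat.card_zmod] at h1
  omega

theorem card_kerA {y : T} {g : ℕ} {φ : T →+ ZMod 2} (h : φ ∈ Opt y g) :
    Nat.card T = 2 * Nat.card (kerA φ) := by
  obtain ⟨u, -, hu⟩ := (mem_Opt.1 h).2 ∅ (Nat.zero_le _)
  rw [(card_ker φ).2 fun e => hu (by rw [e]; rfl), kerA,
    AddSubgroup.card_map_of_injective Subtype.val_injective]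

theorem card_agree (h2 : ∀ w : W, w + w = 0) (B : Finset E) {g : ℕ} (hB : B.card ≤ g)
    (s : Finset (T →+ ZMod 2))
    (hs : ∀ φ ∈ s, ∀ φ' ∈ s, ∀ u : T, (∀ e ∈ B, u.1 e = 0) → φ u = φ' u) :
    s.card ≤ Fintype.card W ^ g := by
  classical
  rcases s.eq_empty_or_nonempty with rfl | ⟨φ0, h0⟩
  · exact Nat.zero_le _
  let r : T →+ (B → W) :=
    { toFun := fun u e => u.1 e.1, map_zero' := rfl, map_add' := fun _ _ => rfl }
  have hinj := QuotientAddGroup.kerLift_injective r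
  have : Finite (T ⧸ r.ker) := Finite.of_injective _ hinj
  let _ : Fintype (T ⧸ r.ker) := Fintype.ofFinite _
  have : Finite (T ⧸ r.ker →+ ZMod 2) := Alg.finite_dual
  let _ : Fintype (T ⧸ r.ker →+ ZMod 2) := Fintype.ofFinite _
  have h3 : s ⊆ univ.image fun ψ : T ⧸ r.ker →+ ZMod 2 =>
      φ0 + ψ.comp (QuotientAddGroup.mk' r.ker) := fun φ hφ => by
    refine mem_image.2 ⟨QuotientAddGroup.lift r.ker (φ - φ0) fun u hu => ?_, mem_univ _, ?_⟩
    · exact sub_eq_zero.2 (hs φ hφ φ0 h0 u fun e he => congrFun hu ⟨e, he⟩)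
    · ext u
      change φ0 u + (φ - φ0) u = φ u
      simp
  refine (card_le_card h3).trans (card_image_le.trans ?_)
  rw [card_univ, ← Nat.card_eq_fintype_card, Alg.card_dual fun x => hinj (by
    rw [map_add, map_zero]
    exact funext fun e => h2 _)]
  refine (Fintype.card_le_of_injective _ hinj).trans ?_
  rw [Fintype.card_fun, Fintype.card_coe]
  exact Nat.pow_le_pow_right Fintype.card_pos hB

theorem card_Opt (h2 : ∀ w : W, w + w = 0) (y : T) (g : ℕ)
    (h : 4 * (2 ^ Fintype.card E * Fintype.card W ^ g) ≤ Nat.card T) :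
    Nat.card T ≤ 4 * (Opt y g).card := by
  classical
  let _ : Fintype T := Fintype.ofFinite _
  have : Finite (T →+ ZMod 2) := Alg.finite_dual
  let _ : Fintype (T →+ ZMod 2) := Fintype.ofFinite _
  let ev : (T →+ ZMod 2) →+ ZMod 2 :=
    { toFun := fun φ => φ y, map_zero' := rfl, map_add' := fun _ _ => rfl }
  have h3 := (card_ker ev).1
  rw [Alg.card_dual fun x => Subtype.ext (funext fun e => h2 _), ← Nat.card_eq_fintype_card] at h3
  have h4 : Nat.card ev.ker = (univ.filter fun φ : T →+ ZMod 2 => φ y = 0).card := by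
    rw [Nat.card_eq_fintype_card, Fintype.card_subtype]
    exact congrArg card (filter_congr fun _ _ => Iff.rfl)
  have h5 : (univ.filter fun φ : T →+ ZMod 2 => φ y = 0) ⊆ Opt y g ∪
      (univ.filter fun B : Finset E => B.card ≤ g).biUnion fun B =>
        univ.filter fun φ => ∀ u : T, (∀ e ∈ B, u.1 e = 0) → φ u = 0 := fun φ hφ => by
    rw [mem_union, mem_Opt]
    by_contra hc
    push Not at hc
    obtain ⟨B, hB, h6⟩ := hc.1 (mem_filter.1 hφ).2
    exact hc.2 (mem_biUnion.2 ⟨B, mem_filter.2 ⟨mem_univ _, hB⟩, mem_filter.2 ⟨mem_univ _, h6⟩⟩)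
  have h6 := (card_le_card h5).trans ((card_union_le _ _).trans (Nat.add_le_add_left
    (card_biUnion_le_card_mul _ _ (Fintype.card W ^ g) fun B hB => card_agree h2 B
      (mem_filter.1 hB).2 _ fun φ hφ φ' hφ' u hu =>
        ((mem_filter.1 hφ).2 u hu).trans ((mem_filter.1 hφ').2 u hu).symm) _))
  have h7 : (univ.filter fun B : Finset E => B.card ≤ g).card ≤ 2 ^ Fintype.card E :=
    (card_le_univ _).trans (by simp)
  have h8 := Nat.mul_le_mul_right (Fintype.card W ^ g) h7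
  omega

theorem card_ge {b : ℕ} (hT : Onto T b) (hb : b ≤ Fintype.card E) :
    Fintype.card W ^ b ≤ Nat.card T := by
  classical
  obtain ⟨B, -, hB⟩ := exists_subset_card_eq (s := (univ : Finset E)) (n := b) hb
  have h : Surjective fun (u : T) (e : B) => u.1 e.1 := fun z => by
    obtain ⟨u, hu, h1⟩ := hT B hB.le fun e => if h : e ∈ B then z ⟨e, h⟩ else 0
    exact ⟨⟨u, hu⟩, funext fun e => by simp [h1 e.1 e.2]⟩
  refine le_trans (le_of_eq ?_) (Nat.card_le_card_of_surjective _ h)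
  rw [Nat.card_eq_fintype_card, Fintype.card_fun, Fintype.card_coe, hB]

theorem card_le : Nat.card T ≤ Fintype.card W ^ Fintype.card E := by
  classical
  refine (Nat.card_le_card_of_injective _ Subtype.val_injective).trans (le_of_eq ?_)
  rw [Nat.card_eq_fintype_card, Fintype.card_fun]

end Pool.Agent.Lib.DG
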