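import Pool.Agent.Lib.DG.EXT2

/-! Peeling along the birth order. -/

set_option linter.unusedSectionVars false

namespace Pool.Agent.Lib.DG

open Finset Filter Function Pool.Agent.Lib.IT

/-- limit of a family of functions with values in a finite set -/
theorem ulim {J Γ Y : Type} [Finite Y] (l : Filter J) [l.NeBot] (ω : J → Γ → Y) :
    ∃ ω' : Γ → Y, ∀ (s : Finset Γ) (p : J → Prop), (∀ᶠ i in l, p i) →
      ∃ i, p i ∧ ∀ g ∈ s, ω i g = ω' g := by
  have h : ∀ g, ∃ a, ∀ᶠ i in (Ultrafilter.of l : Filter J), ω i g = a := fun g => by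
    obtain ⟨a, ha⟩ := ((Ultrafilter.of l).map fun i => ω i g).eq_pure_of_finite
    refine ⟨a, ?_⟩
    have : {a} ∈ (Ultrafilter.of l).map fun i => ω i g := by rw [ha]; exact rfl
    exact this
  choose ω' hω' using h
  refine ⟨ω', fun s p hp => ?_⟩
  exact ((hp.filter_mono (Ultrafilter.of_le l)).and ((eventually_all_finset s).2
    fun g _ => hω' g)).exists

variable {C W : Type} [Fintype C] [Fintype W] [AddCommGroup W] {D : Data C W} {Γ : Type} [Group Γ]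
  {gen : C × W → Γ} {n0 : ℕ}

theorem Vg_fin {X : AddSubgroup (Γ → C × Bool → W)} {v : X →+ ZMod 2} (hv : v ∈ Vg X) :
    ∃ s : Finset Γ, ∀ ω : X, (∀ g ∈ s, ω.1 g = 0) → v ω = 0 := by
  classical
  induction hv using AddSubgroup.closure_induction with
  | mem v hv =>
    obtain ⟨g, p, φ, rfl⟩ := hv
    exact ⟨{g}, fun ω h => by simp [coord, h g (mem_singleton_self g)]⟩
  | zero => exact ⟨∅, fun _ _ => rfl⟩
  | add u v _ _ hu hv =>
    obtain ⟨s, hs⟩ := hu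
    obtain ⟨t, ht⟩ := hv
    refine ⟨s ∪ t, fun ω h => ?_⟩
    rw [AddMonoidHom.add_apply, hs ω fun g hg => h g (mem_union_left _ hg),
      ht ω fun g hg => h g (mem_union_right _ hg), add_zero]
  | neg u _ hu =>
    obtain ⟨s, hs⟩ := hu
    exact ⟨s, fun ω h => by rw [AddMonoidHom.neg_apply, hs ω h, neg_zero]⟩

section
variable (B : Birth D gen n0) {A : ∀ n, AddSubgroup (Fin (D.N n) × C → W)}

theorem valid_of {A' : ∀ n, AddSubgroup (Fin (D.N n) × C → W)} {t0 : ℕ ×ₗ ℕ}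
    {ω : Γ → C × Bool → W} (hω : ω ∈ XA D gen A) (h0 : ∀ g, B.β g < t0 → ω g = 0)
    (h1 : ∀ n ι, B.big t0 = some ⟨n, ι⟩ → wd ι ω ∈ A' n) : Valid B A' t0 ω := by
  refine ⟨fun g c w _ => hω.1 g c w, fun t ht n ι hb => ?_⟩
  rcases ht.lt_or_eq with h | h
  · have : wd ι ω = 0 := funext fun e => by
      unfold wd
      rw [h0 _ ((B.le t n ι hb _).trans_lt h)]
      rfl
    rw [this]
    exact zero_mem _
  · exact h1 n ι (h ▸ hb)

theorem port_eq {n : ℕ} {ι : Fin (D.N n) → Γ} (hι : IsCopy D gen n ι) {ω : Γ → C × Bool → W}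
    (hω : ω ∈ XA D gen A) (a : Fin (D.N n)) (p : C × Bool) :
    ω (ι a) p = wd ι ω (edge (D.π n) a p) := by
  obtain ⟨c, b⟩ := p
  cases b
  · have h := hω.1 (ι ((D.π n c).symm a)) c (D.y n ((D.π n c).symm a, c))
    rw [← hι, Equiv.apply_symm_apply] at h
    exact h.symm
  · rfl

theorem edge_mem_gateE {t : ℕ ×ₗ ℕ} {n : ℕ} {ι : Fin (D.N n) → Γ} {a : Fin (D.N n)}
    (ha : B.β (ι a) < t) (p : C × Bool) : edge (D.π n) a p ∈ gateE B t ι := by
  obtain ⟨c, b⟩ := p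
  cases b
  · exact mem_gateE.2 (Or.inr (by simpa [edge] using ha))
  · exact mem_gateE.2 (Or.inl ha)

theorem lift_word (hA : ∀ n, Onto (A n) (gsz D n)) {t0 : ℕ ×ₗ ℕ} {n : ℕ} {ι : Fin (D.N n) → Γ}
    (hb : B.big t0 = some ⟨n, ι⟩) {u : Fin (D.N n) × C → W} (hu : u ∈ A n)
    (h0 : ∀ e ∈ gateE B t0 ι, u e = 0) :
    ∃ ω ∈ XA D gen A, (∀ g, B.β g < t0 → ω g = 0) ∧ wd ι ω = u := by
  classical
  let ω0 : Γ → C × Bool → W := fun g p =>
    if h : ∃ a, ι a = g then u (edge (D.π n) h.choose p) else 0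
  have h1 : ∀ a p, ω0 (ι a) p = u (edge (D.π n) a p) := fun a p => by
    have hex : ∃ a', ι a' = ι a := ⟨a, rfl⟩
    simp only [ω0]
    rw [dif_pos hex, B.inj t0 n ι hb hex.choose_spec]
  have h2 : ∀ g, B.β g < t0 → ω0 g = 0 := fun g hg => funext fun p => by
    by_cases hex : ∃ a, ι a = g
    · obtain ⟨a, rfl⟩ := hex
      rw [h1]
      exact h0 _ (edge_mem_gateE B hg p)
    · simp only [ω0]
      rw [dif_neg hex]
      rfl
  have h3 : wd ι ω0 = u := funext fun e => h1 e.1 (e.2, true)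
  have hV : Valid B A t0 ω0 := by
    refine ⟨fun g c w hle => ?_, fun t ht m ι' hb' => ?_⟩
    · rcases hle.lt_or_eq with h | h
      · rw [h2 _ ((le_max_left _ _).trans_lt h), h2 _ ((le_max_right _ _).trans_lt h)]
        rfl
      · obtain ⟨a, rfl, hy⟩ := B.edge_big g (c, w) n ι (h ▸ hb)
        have hn : ι (D.π n c a) = ι a * gen (c, w) := by
          rw [B.hom t0 n ι hb a c]
          exact congrArg (fun x => ι a * gen (c, x)) hy
        rw [← hn, h1, h1]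
        simp [edge]
    · rcases ht.lt_or_eq with h | h
      · have : wd ι' ω0 = 0 := funext fun e => by
          unfold wd
          rw [h2 _ ((B.le t m ι' hb' _).trans_lt h)]
          rfl
        rw [this]
        exact zero_mem _
      · rw [h, hb] at hb'
        cases hb'
        rwa [h3]
  obtain ⟨ω, hω, h4⟩ := stEXT2 C W D Γ gen n0 B A hA t0 ω0 hV
  refine ⟨ω, hω, fun g hg => by rw [h4 g hg.le, h2 g hg], ?_⟩
  rw [← h3]
  funext e
  unfold wd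
  rw [h4 _ (B.le t0 n ι hb _)]

variable {X0 : AddSubgroup (Γ → C × Bool → W)}

theorem exists_last (hA : XA D gen A ≤ X0) (v : X0 →+ ZMod 2) (hv : v ∈ Vg X0)
    (h : ∃ (ω : Γ → C × Bool → W) (hω : ω ∈ XA D gen A), v ⟨ω, hA hω⟩ ≠ 0) :
    ∃ t0, (∀ (ω : Γ → C × Bool → W) (hω : ω ∈ XA D gen A), (∀ g, B.β g ≤ t0 → ω g = 0) →
      v ⟨ω, hA hω⟩ = 0) ∧ ∃ (ω : Γ → C × Bool → W) (hω : ω ∈ XA D gen A),
        (∀ g, B.β g < t0 → ω g = 0) ∧ v ⟨ω, hA hω⟩ ≠ 0 := by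
  obtain ⟨s, hs⟩ := Vg_fin hv
  let P : ℕ ×ₗ ℕ → Prop := fun t0 => ∀ (ω : Γ → C × Bool → W) (hω : ω ∈ XA D gen A),
    (∀ g, B.β g ≤ t0 → ω g = 0) → v ⟨ω, hA hω⟩ = 0
  have hne : {t | P t}.Nonempty :=
    ⟨s.sup B.β, fun ω hω h0 => hs _ fun g hg => h0 g (le_sup hg)⟩
  let t0 := wellFounded_lt.min _ hne
  refine ⟨t0, wellFounded_lt.min_mem _ hne, ?_⟩
  rcases isEmpty_or_nonempty (Set.Iio t0) with he | he
  · obtain ⟨ω, hω, h1⟩ := h
    exact ⟨ω, hω, fun g hg => he.elim ⟨_, hg⟩, h1⟩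
  · have h1 : ∀ t : Set.Iio t0, ∃ (ω : Γ → C × Bool → W) (hω : ω ∈ XA D gen A),
        (∀ g, B.β g ≤ t → ω g = 0) ∧ v ⟨ω, hA hω⟩ ≠ 0 := fun t => by
      by_contra hc
      push Not at hc
      exact wellFounded_lt.not_lt_min {t | P t} (x := t.1) hc t.2
    choose ω hω h2 h3 using h1
    obtain ⟨ω', h4⟩ := ulim (atTop : Filter (Set.Iio t0)) ω
    have h5 : ω' ∈ XA D gen A := (cfg_XA D gen A).closed ω' fun s => by
      obtain ⟨i, -, hi⟩ := h4 s (fun _ => True) (Eventually.of_forall fun _ => trivial)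
      exact ⟨ω i, hω i, hi⟩
    refine ⟨ω', h5, fun g hg => ?_, ?_⟩
    · obtain ⟨i, hi, h6⟩ := h4 {g} _ (eventually_ge_atTop (⟨B.β g, hg⟩ : Set.Iio t0))
      rw [← h6 g (mem_singleton_self g)]
      exact h2 i g hi
    · obtain ⟨i, -, hi⟩ := h4 s (fun _ => True) (Eventually.of_forall fun _ => trivial)
      have h6 := hs (⟨ω i, hA (hω i)⟩ - ⟨ω', hA h5⟩) fun g hg => sub_eq_zero.2 (hi g hg)
      rw [map_sub, sub_eq_zero] at h6
      exact h6 ▸ h3 i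

include B in
/-- a functional that dies when the code of type `n` is cut by a hyperplane determines the
hyperplane up to the gate -/
theorem peel (hA : XA D gen A ≤ X0) (hO : ∀ n, Onto (A n) (gsz D n)) (v : X0 →+ ZMod 2)
    (hv : v ∈ Vg X0) (h : ∃ (ω : Γ → C × Bool → W) (hω : ω ∈ XA D gen A), v ⟨ω, hA hω⟩ ≠ 0)
    (n : ℕ) : ∃ (B0 : Finset (Fin (D.N n) × C)) (S : Set (Fin (D.N n) × C → W)),
      B0.card ≤ gsz D n ∧ ∀ A' ≤ A n, Onto A' (gsz D n) →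
        (∀ u ∈ A n, ∀ u' ∈ A n, u ∉ A' → u' ∉ A' → u + u' ∈ A') →
        (∀ ω : X0, ω.1 ∈ XA D gen (update A n A') → v ω = 0) →
        ∀ u ∈ A n, (∀ e ∈ B0, u e = 0) → (u ∈ A' ↔ u ∈ S) := by
  obtain ⟨t0, hP, ω1, hω1, h1, hv1⟩ := exists_last B hA v hv h
  have hagree : ∀ (ω ω' : Γ → C × Bool → W) (hω : ω ∈ XA D gen A) (hω' : ω' ∈ XA D gen A),
      (∀ g, B.β g ≤ t0 → ω g = ω' g) → v ⟨ω, hA hω⟩ = v ⟨ω', hA hω'⟩ := fun ω ω' hω hω' he => by
    have h2 := hP (ω - ω') (sub_mem hω hω') fun g hg => sub_eq_zero.2 (he g hg)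
    rw [← sub_eq_zero, ← map_sub]
    exact h2
  have hkill : ∀ A' ≤ A n, Onto A' (gsz D n) →
      (∀ ω : X0, ω.1 ∈ XA D gen (update A n A') → v ω = 0) →
      ∀ (ω : Γ → C × Bool → W) (hω : ω ∈ XA D gen A), (∀ g, B.β g < t0 → ω g = 0) →
        (∀ ι, B.big t0 = some ⟨n, ι⟩ → wd ι ω ∈ A') → v ⟨ω, hA hω⟩ = 0 := by
    intro A' hle hO' hz ω hω h0 hw
    have hle' : ∀ m, update A n A' m ≤ A m := fun m => by
      by_cases hm : m = n
      · subst hm; rwa [update_self]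
      · rw [update_of_ne hm]
    obtain ⟨ω', hω', h2⟩ := stEXT2 C W D Γ gen n0 B (update A n A') (fun m => by
      by_cases hm : m = n
      · subst hm; rwa [update_self]
      · rw [update_of_ne hm]; exact hO m) t0 ω (valid_of B hω h0 fun m ι hb => by
      by_cases hm : m = n
      · subst hm; rw [update_self]; exact hw ι hb
      · rw [update_of_ne hm]; exact hω.2 m ι (B.hom t0 m ι hb))
    rw [← hagree ω' ω (XA_mono D gen hle' hω') hω h2]
    exact hz _ hω'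
  by_cases hb : ∃ ι, B.big t0 = some ⟨n, ι⟩
  · obtain ⟨ι, hb⟩ := hb
    have hι := B.hom t0 n ι hb
    have huniq : ∀ (ω ω' : Γ → C × Bool → W) (hω : ω ∈ XA D gen A) (hω' : ω' ∈ XA D gen A),
        (∀ g, B.β g < t0 → ω g = 0) → (∀ g, B.β g < t0 → ω' g = 0) → wd ι ω = wd ι ω' →
        v ⟨ω, hA hω⟩ = v ⟨ω', hA hω'⟩ := fun ω ω' hω hω' h0 h0' he => by
      refine hagree ω ω' hω hω' fun g hg => ?_
      rcases hg.lt_or_eq with h2 | h2
      · rw [h0 g h2, h0' g h2]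
      · obtain ⟨a, rfl⟩ := B.born t0 n ι hb g h2
        funext p
        rw [port_eq hι hω, port_eq hι hω', he]
    refine ⟨gateE B t0 ι, {u | ∃ (ω : Γ → C × Bool → W) (hω : ω ∈ XA D gen A),
      (∀ g, B.β g < t0 → ω g = 0) ∧ wd ι ω = u ∧ v ⟨ω, hA hω⟩ = 0}, card_gateE B hb,
      fun A' hle hO' h2 hz u hu h0 => ?_⟩
    have hk : ∀ (ω : Γ → C × Bool → W) (hω : ω ∈ XA D gen A), (∀ g, B.β g < t0 → ω g = 0) →
        wd ι ω ∈ A' → v ⟨ω, hA hω⟩ = 0 := fun ω hω h3 h4 =>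
      hkill A' hle hO' hz ω hω h3 fun ι' hb' => by
        rw [hb] at hb'
        cases hb'
        exact h4
    constructor
    · intro h3
      obtain ⟨ω, hω, h4, h5⟩ := lift_word B hO hb hu h0
      exact ⟨ω, hω, h4, h5, hk ω hω h4 (h5 ▸ h3)⟩
    · rintro ⟨ω, hω, h4, rfl, h5⟩
      by_contra h3
      have h6 := hk (ω + ω1) (add_mem hω hω1) (fun g hg => by
        rw [Pi.add_apply, h4 g hg, h1 g hg, add_zero])
        (h2 _ hu _ (hω1.2 n ι hι) h3 fun h7 => hv1 (hk ω1 hω1 h1 h7))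
      have h8 : v ⟨ω + ω1, hA (add_mem hω hω1)⟩ = v ⟨ω, hA hω⟩ + v ⟨ω1, hA hω1⟩ :=
        map_add v ⟨ω, hA hω⟩ ⟨ω1, hA hω1⟩
      rw [h6, h5, zero_add] at h8
      exact hv1 h8.symm
  · refine ⟨∅, ∅, Nat.zero_le _, fun A' hle hO' _ hz => ?_⟩
    exact absurd (hkill A' hle hO' hz ω1 hω1 h1 fun ι h2 => absurd ⟨ι, h2⟩ hb) hv1

end

/-- a functional that vanishes on the limit vanishes at a finite stage -/
theorem union_ker {X0 : AddSubgroup (Γ → C × Bool → W)}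
    (A : ℕ → ∀ n, AddSubgroup (Fin (D.N n) × C → W)) (A' : ∀ n, AddSubgroup (Fin (D.N n) × C → W))
    (hA : ∀ k, XA D gen (A k) ≤ X0) (hA' : XA D gen A' ≤ X0) (h : ∀ n k, n < k → A k n = A' n)
    (v : X0 →+ ZMod 2) (hv : v ∈ Vg X0) (h0 : ∀ ω (hω : ω ∈ XA D gen A'), v ⟨ω, hA' hω⟩ = 0) :
    ∃ k, ∀ ω (hω : ω ∈ XA D gen (A k)), v ⟨ω, hA k hω⟩ = 0 := by
  classical
  by_contra hc
  push Not at hc
  choose ω hω h1 using hc
  obtain ⟨s, hs⟩ := Vg_fin hv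
  obtain ⟨ω', h2⟩ := ulim (atTop : Filter ℕ) ω
  have h3 : ω' ∈ XA D gen A' := by
    refine ⟨fun g c w => ?_, fun n ι hι => ?_⟩
    · obtain ⟨i, -, hi⟩ := h2 {g, g * gen (c, w)} (fun _ => True)
        (Eventually.of_forall fun _ => trivial)
      rw [← hi g (by simp), ← hi (g * gen (c, w)) (by simp)]
      exact (hω i).1 g c w
    · obtain ⟨i, hn, hi⟩ := h2 (univ.image ι) _ (eventually_gt_atTop n)
      have e : wd ι ω' = wd ι (ω i) := by
        funext e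
        unfold wd
        rw [hi (ι e.1) (mem_image_of_mem _ (mem_univ _))]
      rw [e, ← h n i hn]
      exact (hω i).2 n ι hι
  obtain ⟨i, -, hi⟩ := h2 s (fun _ => True) (Eventually.of_forall fun _ => trivial)
  have h6 := hs (⟨ω i, hA i (hω i)⟩ - ⟨ω', hA' h3⟩) fun g hg => sub_eq_zero.2 (hi g hg)
  rw [map_sub, sub_eq_zero, h0 ω' h3] at h6
  exact h1 i h6

end Pool.Agent.Lib.DG
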