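import Pool.Agent.Lib.IT.Main
import Pool.Agent.Lib.DG.ABS
import Pool.Agent.Lib.DG.L1
import Pool.Agent.Lib.DG.MEA2
import Pool.Agent.Lib.DG.NUM
import Pool.Agent.Lib.DG.OPT
import Pool.Agent.Lib.DG.PEEL

/-! All blocks together. -/

set_option linter.unusedSectionVars false

namespace Pool.Agent.Lib.DG

open Finset Filter Function Pool.Agent.Lib.IT

theorem countable_of_fg {G : Type} [Group G] (h : Group.FG G) : Countable G := by
  obtain ⟨α, _, φ, hφ⟩ := Group.fg_iff_exists_freeGroup_hom_surjective_finite.1 h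
  exact hφ.countable

section Res
variable {C W : Type} [Fintype C] [Fintype W] [AddCommGroup W] {Γ : Type} [Group Γ]
  {gen : C × W → Γ} {X X' : AddSubgroup (Γ → C × Bool → W)}

theorem comp_mem (hle : X' ≤ X) (v : X →+ ZMod 2) (hv : v ∈ Vg X) :
    v.comp (AddSubgroup.inclusion hle) ∈ Vg X' := by
  induction hv using AddSubgroup.closure_induction with
  | mem v hv =>
    obtain ⟨g, p, φ, rfl⟩ := hv
    exact AddSubgroup.subset_closure ⟨g, p, φ, rfl⟩
  | zero => exact (Vg X').zero_mem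
  | add u v _ _ hu hv => exact (Vg X').add_mem hu hv
  | neg u _ hu => exact (Vg X').neg_mem hu

/-- restriction of functionals -/
def res (hle : X' ≤ X) : Vg X →+ Vg X' where
  toFun v := ⟨v.1.comp (AddSubgroup.inclusion hle), comp_mem hle v.1 v.2⟩
  map_zero' := rfl
  map_add' _ _ := rfl

theorem res_surj (hle : X' ≤ X) : Surjective (res hle) := by
  rintro ⟨v, hv⟩
  induction hv using AddSubgroup.closure_induction with
  | mem v hv =>
    obtain ⟨g, p, φ, rfl⟩ := hv
    exact ⟨co X g p φ, rfl⟩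
  | zero => exact ⟨0, rfl⟩
  | add u v _ _ hu hv =>
    obtain ⟨a, ha⟩ := hu
    obtain ⟨b, hb⟩ := hv
    exact ⟨a + b, by rw [map_add, ha, hb]; rfl⟩
  | neg u _ hu =>
    obtain ⟨a, ha⟩ := hu
    exact ⟨-a, by rw [map_neg, ha]; rfl⟩

/-- the homomorphism of semidirect products -/
def rr (h : Cfg gen X) (h' : Cfg gen X') (hle : X' ≤ X) : Gg h →* Gg h' :=
  SemidirectProduct.map (AddMonoidHom.toMultiplicative (res hle)) (MonoidHom.id Γ) fun _ => rfl

theorem rr_eq_one (h : Cfg gen X) (h' : Cfg gen X') (hle : X' ≤ X) (x : Gg h) :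
    rr h h' hle x = 1 ↔ x.right = 1 ∧
      ∀ ω (hω : ω ∈ X'), (Multiplicative.toAdd x.left).1 ⟨ω, hle hω⟩ = 0 := by
  constructor
  · intro hx
    refine ⟨congrArg SemidirectProduct.right hx, fun ω hω => ?_⟩
    exact congrArg (fun y : Gg h' => (Multiplicative.toAdd y.left).1 ⟨ω, hω⟩) hx
  · rintro ⟨h1, h2⟩
    refine SemidirectProduct.ext ?_ h1
    exact Multiplicative.toAdd.injective (Subtype.ext (AddMonoidHom.ext fun ω => h2 ω.1 ω.2))

theorem rr_surj (h : Cfg gen X) (h' : Cfg gen X') (hle : X' ≤ X) : Surjective (rr h h' hle) :=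
  fun y => by
    obtain ⟨v, hv⟩ := res_surj hle (Multiplicative.toAdd y.left)
    exact ⟨⟨Multiplicative.ofAdd v, y.right⟩,
      SemidirectProduct.ext (congrArg Multiplicative.ofAdd hv) rfl⟩

end Res

section Glue
variable {C W : Type} [Fintype C] [Fintype W] [AddCommGroup W] (D : Data C W) {Γ : Type} [Group Γ]
  (gen : C × W → Γ)

/-- the choices -/
abbrev Ch (n : ℕ) : Type := adm D Set.univ n →+ ZMod 2

/-- the codes -/
noncomputable def AA (w : ∀ n, Ch D n) (n : ℕ) : AddSubgroup (Fin (D.N n) × C → W) := kerA (w n)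

theorem AA_le (w : ∀ n, Ch D n) : XA D gen (AA D w) ≤ XA D gen (adm D Set.univ) :=
  XA_mono D gen fun _ => kerA_le _

/-- the quotient map -/
noncomputable def qq (w : ∀ n, Ch D n) :
    Gg (cfg_XA D gen (adm D Set.univ)) →* Gg (cfg_XA D gen (AA D w)) :=
  rr _ _ (AA_le D gen w)

theorem mem_ker {w : ∀ n, Ch D n} {g : Gg (cfg_XA D gen (adm D Set.univ))} :
    g ∈ (qq D gen w).ker ↔ g.right = 1 ∧ ∀ ω (hω : ω ∈ XA D gen (AA D w)),
      (Multiplicative.toAdd g.left).1 ⟨ω, AA_le D gen w hω⟩ = 0 :=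
  rr_eq_one _ _ _ g

theorem y_mem (n : ℕ) : D.y n ∈ adm D Set.univ n := by
  refine AddSubgroup.mem_sup_right ?_
  rw [if_pos (Set.mem_univ n)]
  exact AddSubgroup.mem_zmultiples _

/-- the admissible choices -/
noncomputable def Om (n : ℕ) : Finset (Ch D n) := Opt ⟨D.y n, y_mem D n⟩ (gsz D n)

theorem onto_adm (n : ℕ) {b : ℕ} (hb : 16 * b ≤ D.N n * Fintype.card C) :
    Onto (adm D Set.univ n) b := fun B hB z => by
  obtain ⟨u, hu, h⟩ := (D.good n).onto B (by
    rw [Fintype.card_prod, Fintype.card_fin]; omega) z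
  exact ⟨u, AddSubgroup.mem_sup_left hu, h⟩

theorem gsz_le (n : ℕ) : 16 * gsz D n ≤ D.N n * Fintype.card C := by
  have := Nat.mul_le_mul_right (Fintype.card C) (D.gate n)
  unfold gsz
  linarith

theorem onto_AA {w : ∀ n, Ch D n} (hw : Adm (fun _ => 0) (Om D) w) (n : ℕ) :
    Onto (AA D w n) (gsz D n) := by
  rcases hw n with h | h
  · rw [AA, h, kerA_zero]
    exact onto_adm D n (gsz_le D n)
  · exact onto_kerA h (onto_adm D n (gsz_le D n))

theorem ker_mono (w w' : ∀ n, Ch D n) (h : ∀ n, w n = 0 ∨ w n = w' n) :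
    (qq D gen w).ker ≤ (qq D gen w').ker := fun g hg => by
  rw [mem_ker] at hg ⊢
  refine ⟨hg.1, fun ω hω => hg.2 ω (XA_mono D gen (fun n => ?_) hω)⟩
  rcases h n with h | h
  · rw [AA, AA, h, kerA_zero]
    exact kerA_le _
  · rw [AA, AA, h]

theorem ker_union (w : ∀ n, Ch D n) :
    ∀ g ∈ (qq D gen w).ker, ∃ n, g ∈ (qq D gen (trunc (fun _ => 0) w n)).ker := fun g hg => by
  rw [mem_ker] at hg
  obtain ⟨k, hk⟩ := union_ker (fun k => AA D (trunc (fun _ => 0) w k)) (AA D w)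
    (fun _ => AA_le D gen _) (AA_le D gen w) (fun n k h => by simp only [AA, trunc, if_pos h])
    _ (Multiplicative.toAdd g.left).2 hg.2
  exact ⟨k, (mem_ker D gen).2 ⟨hg.1, hk⟩⟩

theorem ker_peel (h2 : ∀ w : W, w + w = 0) (B : Birth D gen 0) {w : ∀ n, Ch D n} {n : ℕ}
    (hw : Adm (fun _ => 0) (Om D) w) (h0 : w n = 0) {g : Gg (cfg_XA D gen (adm D Set.univ))}
    (hg : g ∉ (qq D gen w).ker) (s : Finset (Ch D n))
    (hs : ∀ o ∈ s, o ∈ Om D n ∧ g ∈ (qq D gen (update w n o)).ker) :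
    s.card ≤ Fintype.card W ^ gsz D n := by
  rcases s.eq_empty_or_nonempty with rfl | ⟨o0, ho0⟩
  · exact Nat.zero_le _
  rw [mem_ker, not_and] at hg
  have h3 := hg ((mem_ker D gen).1 (hs o0 ho0).2).1
  push Not at h3
  obtain ⟨B0, S, hB0, hS⟩ := peel B (AA_le D gen w) (onto_AA D hw) _
    (Multiplicative.toAdd g.left).2 h3 n
  have hT : AA D w n = adm D Set.univ n := by rw [AA, h0, kerA_zero]
  have h4 : ∀ o ∈ s, ∀ u : adm D Set.univ n, (∀ e ∈ B0, u.1 e = 0) → (o u = 0 ↔ u.1 ∈ S) := by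
    intro o ho u hu
    rw [← mem_kerA]
    rw [hT] at hS
    refine hS (kerA o) (kerA_le o) (onto_kerA (hs o ho).1 (onto_adm D n (gsz_le D n)))
      (kerA_add o) (fun ω hω => ((mem_ker D gen).1 (hs o ho).2).2 ω.1 ?_) u.1 u.2 hu
    have h5 : AA D (update w n o) = update (AA D w) n (kerA o) :=
      funext (apply_update (fun n (φ : Ch D n) => kerA φ) w n o)
    rwa [h5]
  exact card_agree h2 B0 hB0 s fun o ho o' ho' u hu =>
    z2_eq ((h4 o ho u hu).trans (h4 o' ho' u hu).symm)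

variable (hC : Fintype.card C = 200) (h2 : ∀ w : W, w + w = 0) (hq : 2 ^ 202 ≤ Fintype.card W)
  (hN : ∀ n, D.N n = 800 ^ (30 * D.ℓ n))

include hC in
theorem gsz_le' (n : ℕ) : gsz D n ≤ 400 * 2 ^ (45 * D.ℓ n) := by
  rw [gsz, hC]
  exact NUM.gate_le _

include hC in
theorem card_lo (n : ℕ) : Fintype.card W ^ (12 * D.N n) ≤ Nat.card (adm D Set.univ n) := by
  classical
  exact card_ge (onto_adm D n (by rw [hC]; omega)) (by
    rw [Fintype.card_prod, Fintype.card_fin, hC]; omega)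

include hC in
theorem card_hi (n : ℕ) : Nat.card (adm D Set.univ n) ≤ Fintype.card W ^ (D.N n * 200) := by
  have := card_le (T := adm D Set.univ n)
  rwa [Fintype.card_prod, Fintype.card_fin, hC] at this

include hC h2 hq hN in
theorem card_Om (n : ℕ) : Nat.card (adm D Set.univ n) ≤ 4 * (Om D n).card := by
  refine card_Opt h2 _ _ (le_trans ?_ (card_lo D hC n))
  rw [Fintype.card_prod, Fintype.card_fin, hC]
  exact NUM.opt_le hq (D.pos n)
    ((gsz_le' D hC n).trans ((NUM.gate_le' (D.one_le n)).trans (hN n).ge))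

end Glue

theorem main_holds : St_MAIN := by
  classical
  obtain ⟨C, iC, hC⟩ : ∃ (C : Type) (_ : Fintype C), Fintype.card C = 200 :=
    ⟨Fin 200, inferInstance, Fintype.card_fin _⟩
  obtain ⟨W, iW, gW, h2, hW, hq⟩ : ∃ (W : Type) (_ : Fintype W) (_ : AddCommGroup W),
      (∀ w : W, w + w = 0) ∧ 2 * 800 ^ 200 < Fintype.card W ∧ 2 ^ 202 ≤ Fintype.card W := by
    have hx : ∀ x y : ℕ, ∃ b : ℕ, x < 2 ^ b ∧ y ≤ 2 ^ b := fun x y =>
      ⟨x + y, by have := Nat.lt_two_pow_self (n := x + y); omega⟩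
    obtain ⟨b, hb⟩ := hx (2 * 800 ^ 200) (2 ^ 202)
    refine ⟨Fin b → ZMod 2, inferInstance, inferInstance, fun w => ?_, ?_⟩
    · ext i; exact CharTwo.add_self_eq_zero _
    · simpa only [Fintype.card_fun, ZMod.card, Fintype.card_fin] using hb
  obtain ⟨D, hGr, hN, hℓ⟩ := seq2 (stGR (stRG1 stPL) (stRG2 stPL) stSW) stRLC (stLAB stROS2) C W hC
    h2 hW fun N n => (n + Fintype.card W * (N * 200) + 1) ^ 5
  obtain ⟨Γ, iΓ, gen, hgen, hB⟩ := stBIR geo_holds stCON C W D (by omega)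
  obtain ⟨B0⟩ := hB 0
  have hq32 : 32 ≤ Fintype.card W := le_trans (by norm_num) hq
  have : Countable (Gg (cfg_XA D gen (adm D Set.univ))) :=
    countable_of_fg ((stALG C W Γ gen _ _ h2).1 hgen)
  obtain ⟨T, _, F, hF, hL⟩ := stL1 (Gg (cfg_XA D gen (adm D Set.univ)))
  have hpos : ∀ n, (0 : ℝ) < Nat.card (adm D Set.univ n) := fun n => Nat.cast_pos.2 Nat.card_pos
  have hm : ∀ n, ∀ o ∈ Om D n,
      1 / (Nat.card (kerA o) : ℝ) = 2 * (1 / (Nat.card (adm D Set.univ n) : ℝ)) := fun n o ho => by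
    rw [card_kerA ho, Nat.cast_mul, Nat.cast_ofNat, ← mul_div_assoc, mul_one, ← div_div, div_self
      two_ne_zero]
  have hstep : ∀ n, 32 * (1 / (Nat.card (adm D Set.univ (n + 1)) : ℝ)) ≤
      1 / (Nat.card (adm D Set.univ n) : ℝ) := fun n => by
    rw [← mul_div_assoc, div_le_div_iff₀ (hpos _) (hpos _), mul_one, one_mul]
    exact_mod_cast (Nat.mul_le_mul_left 32 (card_hi D hC n)).trans
      ((NUM.step_le hq32 (hGr n)).trans (card_lo D hC (n + 1)))
  obtain ⟨w, hw, hdiag⟩ := stABS _ (Ch D) (fun _ => 0) (Om D) (fun w => (qq D gen w).ker)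
    (fun n => Fintype.card W ^ gsz D n) (fun n => 60 * D.ℓ n)
    (fun n => 1 / (Nat.card (adm D Set.univ n) : ℝ)) (fun n o => 1 / (Nat.card (kerA o) : ℝ)) T F
    (ker_mono D gen) (ker_union D gen)
    (fun w n hw h0 g hg => ker_peel D gen h2 B0 hw h0 hg _ fun o ho =>
      (@mem_filter _ _ (_) _ _).1 ho)
    (fun n => ⟨one_div_pos.2 (hpos n), by rw [kerA_zero], hm n, by
      rw [mul_one_div, div_mul_eq_mul_div, le_div_iff₀ (hpos n), one_mul]
      exact_mod_cast card_Om D hC h2 hq hN n, hstep n⟩)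
    (fun a b hab => Nat.mul_le_mul_left 60 (hℓ.monotone hab))
    (fun c => (eventually_ge_atTop c).mono fun n hn => by
      have h3 := NUM.supp_le (q := Fintype.card W) (by omega) (D.one_le n) hℓ.le_apply
        (hn.trans hℓ.le_apply) ((gsz_le' D hC n).trans (NUM.gate_le' (D.one_le n)))
      rw [← hN n] at h3
      have h4 := (h3.trans (card_lo D hC n)).trans (card_Om D hC h2 hq hN n)
      exact Nat.le_of_mul_le_mul_left h4 (by norm_num))
    (fun c => ((eventually_ge_atTop (Fintype.card W)).and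
      (tendsto_natCast_atTop_atTop.eventually_ge_atTop c)).mono fun n hn => by
      refine ⟨NUM.cast_le hn.2 (NUM.tail_le (D.one_le n) hℓ.le_apply (hn.1.trans hℓ.le_apply)
        (gsz_le' D hC n)), ?_⟩
      have h3 := NUM.cast_le hn.2 ((Nat.mul_le_mul_left n (card_hi D hC n)).trans
        (NUM.next_le ((hGr n).trans (hN (n + 1)).le)))
      rw [le_div_iff₀ (hpos n), mul_right_comm]
      exact h3) hF
  have hS : Summable fun n => 1 / (Nat.card (AA D w n) : ℝ) := by
    have h3 : Summable fun n => 1 / (Nat.card (adm D Set.univ n) : ℝ) :=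
      summable_of_ratio_norm_eventually_le (r := 1 / 32) (by norm_num)
        (Eventually.of_forall fun n => by
          rw [Real.norm_of_nonneg (one_div_pos.2 (hpos _)).le,
            Real.norm_of_nonneg (one_div_pos.2 (hpos _)).le]
          linarith [hstep n])
    refine Summable.of_nonneg_of_le (fun n => by positivity) (fun n => ?_) (h3.mul_left 2)
    rcases hw n with h | h
    · rw [AA, h, kerA_zero]
      linarith [one_div_pos.2 (hpos n)]
    · exact (hm n _ h).le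
  obtain ⟨hE, hM⟩ := stMEA2 stCON stEXT2 C W D Γ gen (AA D w) (cfg_XA D gen _) hB hC h2
    (fun n => kerA_le _) (fun n => by
      refine (mem_kerA ⟨_, y_mem D n⟩).2 ?_
      rcases hw n with h | h
      · rw [h]; rfl
      · exact (mem_Opt.1 h).1) (onto_AA D hw) hS
  obtain ⟨m, μ, hμ⟩ := stHAAR2 C W Γ gen _ (cfg_XA D gen (AA D w))
  obtain ⟨ρ, h0, h1, hρ⟩ := stCHE POI4.stPOI4 C (by omega)
  obtain ⟨p, hp, hpp, hsa, htr⟩ := stPRO stALG stPAR stLIM C W Γ gen _ (cfg_XA D gen (AA D w)) m μ ρ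
    h2 hμ h0 h1 (fun ω => hρ _ _ (hE ω)) (hM m μ hμ).1
  refine ⟨_, inferInstance, (stALG C W Γ gen _ (cfg_XA D gen (AA D w)) h2).1 hgen, p, hp, hpp, hsa,
    fun r e he q q' heq => ?_⟩
  obtain ⟨τ, n, c, h3, h4⟩ := hL _ (qq D gen w) (rr_surj _ _ _)
    (fun n => (qq D gen (trunc (fun _ => 0) w n)).ker) (fun _ => inferInstance)
    (fun a b hab => ker_mono D gen _ _ fun i => by
      by_cases hi : i < a
      · exact Or.inr (by simp only [trunc, if_pos hi, if_pos (hi.trans_le hab)])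
      · exact Or.inl (by simp only [trunc, if_neg hi]))
    (fun g => ⟨ker_union D gen w g, fun ⟨n, hn⟩ => ker_mono D gen _ w (fun i => by
      by_cases hi : i < n
      · exact Or.inr (by simp only [trunc, if_pos hi])
      · exact Or.inl (by simp only [trunc, if_neg hi])) hn⟩) r e he q q'
  rw [← heq, htr, (hM m μ hμ).2] at h4
  exact hdiag τ n c h3 h4

end Pool.Agent.Lib.DG
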